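import Pool.Agent.H888R2.KC.W8
import Pool.Agent.H888R2.KC.W1
import Pool.Agent.H992R2.Rot
import Pool.Agent.H992R2.DetNull

/-! Matrices as points of `ℝ^(n×n)`, two-sided multiplication, singular value decomposition. -/

set_option autoImplicit false

namespace Pool.Agent.Run7.h884.SS

open MeasureTheory Set Matrix
open scoped ENNReal
open Pool.Agent.H888R2.KC

/-- the space of `n × n` matrices -/
abbrev P (n : ℕ) : Type := Fin n × Fin n → ℝ

variable {n : ℕ}

/-- the matrix of a point -/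
def mt (x : P n) : Matrix (Fin n) (Fin n) ℝ := Matrix.of fun i j => x (i, j)

/-- the point of a matrix -/
def un (A : Matrix (Fin n) (Fin n) ℝ) : P n := fun p => A p.1 p.2

@[simp] theorem mt_un (A : Matrix (Fin n) (Fin n) ℝ) : mt (un A) = A := rfl

@[simp] theorem un_mt (x : P n) : un (mt x) = x := rfl

/-- two-sided multiplication -/
def act (g h : Matrix (Fin n) (Fin n) ℝ) (x : P n) : P n := un (g * mt x * h)

@[simp] theorem mt_act (g h : Matrix (Fin n) (Fin n) ℝ) (x : P n) :
    mt (act g h x) = g * mt x * h := rfl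

theorem act_act (g h g' h' : Matrix (Fin n) (Fin n) ℝ) (x : P n) :
    act g h (act g' h' x) = act (g * g') (h' * h) x := by
  unfold act
  rw [mt_un]
  simp only [Matrix.mul_assoc]

theorem act_one (x : P n) : act 1 1 x = x := by
  unfold act
  rw [Matrix.one_mul, Matrix.mul_one, un_mt]

theorem cont_mt : Continuous (mt : P n → Matrix (Fin n) (Fin n) ℝ) := by
  refine continuous_matrix fun i j => ?_
  simp only [mt, Matrix.of_apply]
  fun_prop

theorem cont_un : Continuous (un : Matrix (Fin n) (Fin n) ℝ → P n) := by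
  refine continuous_pi fun p => ?_
  simp only [un]
  exact continuous_id.matrix_elem p.1 p.2

theorem act_kron (g h : Matrix (Fin n) (Fin n) ℝ) (x : P n) :
    act g h x = Matrix.toLin' (Matrix.kroneckerMap (· * ·) g hᵀ) x := by
  funext p
  simp only [act, un, Matrix.toLin'_apply, Matrix.mulVec, dotProduct, Matrix.kroneckerMap_apply,
    Matrix.transpose_apply]
  rw [Fintype.sum_prod_type, Matrix.mul_apply]
  simp only [Matrix.mul_apply, mt, Matrix.of_apply, Finset.sum_mul]
  rw [Finset.sum_comm]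
  refine Finset.sum_congr rfl fun i _ => Finset.sum_congr rfl fun j _ => ?_
  ring

theorem lint_act (g h : Matrix (Fin n) (Fin n) ℝ) (hg : g.det ≠ 0) (hh : h.det ≠ 0)
    (F : P n → ℝ≥0∞) (hF : Measurable F) :
    ∫⁻ x, F (act g h x) = ENNReal.ofReal ((|g.det| ^ n * |h.det| ^ n)⁻¹) * ∫⁻ x, F x := by
  have hd : (Matrix.kroneckerMap (· * ·) g hᵀ).det = g.det ^ n * h.det ^ n := by
    have := Matrix.det_kronecker g hᵀ
    rw [Fintype.card_fin, Matrix.det_transpose] at this
    exact this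
  have hd0 : (Matrix.kroneckerMap (· * ·) g hᵀ).det ≠ 0 := by
    rw [hd]; exact mul_ne_zero (pow_ne_zero _ hg) (pow_ne_zero _ hh)
  have h1 := Real.map_matrix_volume_pi_eq_smul_volume_pi hd0
  have h2 : Measurable (Matrix.toLin' (Matrix.kroneckerMap (· * ·) g hᵀ)) :=
    (LinearMap.continuous_of_finiteDimensional _).measurable
  simp_rw [act_kron]
  rw [← lintegral_map hF h2, h1, lintegral_smul_measure, hd, abs_inv, abs_mul, abs_pow, abs_pow,
    smul_eq_mul]

theorem meas_act (g h : Matrix (Fin n) (Fin n) ℝ) : Measurable (act g h) := by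
  have h2 : Measurable (Matrix.toLin' (Matrix.kroneckerMap (· * ·) g hᵀ)) :=
    (LinearMap.continuous_of_finiteDimensional _).measurable
  have : act g h = Matrix.toLin' (Matrix.kroneckerMap (· * ·) g hᵀ) := funext (act_kron g h)
  rw [this]
  exact h2

/-! ### orthogonal matrices -/

theorem uT {U : Matrix (Fin n) (Fin n) ℝ} (hU : U ∈ Matrix.unitaryGroup (Fin n) ℝ) :
    Uᵀ * U = 1 ∧ U * Uᵀ = 1 := by
  have h1 := (Matrix.mem_unitaryGroup_iff').1 hU
  have h2 := (Matrix.mem_unitaryGroup_iff).1 hU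
  rw [Matrix.star_eq_conjTranspose, Matrix.conjTranspose_eq_transpose_of_trivial] at h1 h2
  exact ⟨h1, h2⟩

theorem uMem {U : Matrix (Fin n) (Fin n) ℝ} (h : Uᵀ * U = 1) :
    U ∈ Matrix.unitaryGroup (Fin n) ℝ := by
  rw [Matrix.mem_unitaryGroup_iff', Matrix.star_eq_conjTranspose,
    Matrix.conjTranspose_eq_transpose_of_trivial, h]

theorem uTmem {U : Matrix (Fin n) (Fin n) ℝ} (hU : U ∈ Matrix.unitaryGroup (Fin n) ℝ) :
    Uᵀ ∈ Matrix.unitaryGroup (Fin n) ℝ :=
  uMem (by rw [Matrix.transpose_transpose]; exact (uT hU).2)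

theorem uDet {U : Matrix (Fin n) (Fin n) ℝ} (hU : U ∈ Matrix.unitaryGroup (Fin n) ℝ) :
    |U.det| = 1 := by
  have h := congrArg Matrix.det (uT hU).1
  rw [Matrix.det_mul, Matrix.det_transpose, Matrix.det_one] at h
  have h2 : |U.det| * |U.det| = 1 := by rw [← abs_mul, h, abs_one]
  nlinarith [abs_nonneg U.det]

theorem uDet0 {U : Matrix (Fin n) (Fin n) ℝ} (hU : U ∈ Matrix.unitaryGroup (Fin n) ℝ) :
    U.det ≠ 0 := by
  have := uDet hU
  intro h
  rw [h, abs_zero] at this
  exact zero_ne_one this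

/-- sum of squares preserved by orthogonal matrices -/
theorem sq_orth {U : Matrix (Fin n) (Fin n) ℝ} (hU : U ∈ Matrix.unitaryGroup (Fin n) ℝ)
    (v : Fin n → ℝ) : ∑ i, (U.mulVec v) i ^ 2 = ∑ i, v i ^ 2 := by
  have h2 : ∑ i, (U.mulVec v i) ^ 2 = dotProduct (U.mulVec v) (U.mulVec v) := by
    simp only [dotProduct, sq]
  have h3 : ∑ i, (v i) ^ 2 = dotProduct v v := by
    simp only [dotProduct, sq]
  rw [h2, Matrix.dotProduct_mulVec, ← Matrix.mulVec_transpose, Matrix.mulVec_mulVec, (uT hU).1,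
      Matrix.one_mulVec, ← h3]

/-- the sum of squares of the entries -/
def nsq (x : P n) : ℝ := ∑ p, x p ^ 2

theorem nsq_tr (x : P n) : nsq x = ((mt x)ᵀ * mt x).trace := by
  simp only [nsq, Matrix.trace, Matrix.diag_apply, Matrix.mul_apply, Matrix.transpose_apply, mt,
    Matrix.of_apply]
  rw [Fintype.sum_prod_type, Finset.sum_comm]
  refine Finset.sum_congr rfl fun i _ => Finset.sum_congr rfl fun j _ => ?_
  ring

theorem nsq_act {U V : Matrix (Fin n) (Fin n) ℝ} (hU : U ∈ Matrix.unitaryGroup (Fin n) ℝ)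
    (hV : V ∈ Matrix.unitaryGroup (Fin n) ℝ) (x : P n) : nsq (act U V x) = nsq x := by
  rw [nsq_tr, nsq_tr, mt_act, Matrix.transpose_mul, Matrix.transpose_mul]
  have : Vᵀ * ((mt x)ᵀ * Uᵀ) * (U * mt x * V) = Vᵀ * ((mt x)ᵀ * (Uᵀ * U) * mt x) * V := by
    simp only [Matrix.mul_assoc]
  rw [this, (uT hU).1, Matrix.mul_one, Matrix.trace_mul_cycle, (uT hV).2, Matrix.one_mul]

theorem cont_nsq : Continuous (nsq : P n → ℝ) := by
  unfold nsq
  fun_prop

/-! ### singular values -/

/-- the frame of symmetric matrices -/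
abbrev S (n : ℕ) : Type := EuclideanSpace ℝ (II ℝ n)

/-- the matrix of a symmetric point -/
noncomputable abbrev Ph (n : ℕ) : S n →ₗ[ℝ] Matrix (Fin n) (Fin n) ℝ := F0 ℝ n

theorem frm (n : ℕ) : Fr (Ph n) := F0_frame ℝ n

theorem svd (A : Matrix (Fin n) (Fin n) ℝ) (hA : A.det ≠ 0) :
    ∃ U ∈ Matrix.unitaryGroup (Fin n) ℝ, ∃ V ∈ Matrix.unitaryGroup (Fin n) ℝ, ∃ s : Fin n → ℝ,
      (∀ i, 0 < s i) ∧ Monotone s ∧ A = U * Matrix.diagonal s * V := by
  have hsym : (Aᵀ * A)ᴴ = Aᵀ * A := by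
    rw [Matrix.conjTranspose_eq_transpose_of_trivial, Matrix.transpose_mul,
      Matrix.transpose_transpose]
  obtain ⟨W, hW, l, hl, hx⟩ := spectral (frm n) (ps (Ph n) (Aᵀ * A))
  have h1 : Aᵀ * A = W * dm ℝ l * Wᵀ := by
    have := congrArg (Ph n) hx
    rw [Phi_ps (frm n) _ hsym, Phi_cj (frm n), Phi_dg (frm n),
      Matrix.conjTranspose_eq_transpose_of_trivial] at this
    exact this
  have hdm : dm ℝ l = Matrix.diagonal fun i => l i := rfl
  rw [hdm] at h1
  have h2 : (A * W)ᵀ * (A * W) = Matrix.diagonal fun i => l i := by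
    rw [Matrix.transpose_mul]
    calc Wᵀ * Aᵀ * (A * W) = Wᵀ * (Aᵀ * A) * W := by simp only [Matrix.mul_assoc]
      _ = (Wᵀ * W) * (Matrix.diagonal fun i => l i) * (Wᵀ * W) := by
        rw [h1]; simp only [Matrix.mul_assoc]
      _ = _ := by rw [(uT hW).1, Matrix.one_mul, Matrix.mul_one]
  have hnn : ∀ i, 0 ≤ l i := by
    intro i
    have h3 := congrFun (congrFun h2 i) i
    rw [Matrix.diagonal_apply_eq, Matrix.mul_apply] at h3
    rw [← h3]
    refine Finset.sum_nonneg fun k _ => ?_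
    rw [Matrix.transpose_apply]
    exact mul_self_nonneg _
  have hpos : ∀ i, 0 < l i := by
    intro i
    refine lt_of_le_of_ne (hnn i) fun h0 => ?_
    have h3 := congrArg Matrix.det h2
    rw [Matrix.det_diagonal, Finset.prod_eq_zero (Finset.mem_univ i) h0.symm, Matrix.det_mul,
      Matrix.det_transpose, Matrix.det_mul] at h3
    have := mul_ne_zero hA (uDet0 hW)
    exact (mul_ne_zero this this) h3
  have hs : ∀ i, 0 < Real.sqrt (l i) := fun i => Real.sqrt_pos.2 (hpos i)
  refine ⟨A * W * Matrix.diagonal (fun i => (Real.sqrt (l i))⁻¹), uMem ?_, Wᵀ, uTmem hW,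
    fun i => Real.sqrt (l i), hs, fun i j hij => Real.sqrt_le_sqrt (hl hij), ?_⟩
  · rw [Matrix.transpose_mul, Matrix.diagonal_transpose]
    calc Matrix.diagonal (fun i => (Real.sqrt (l i))⁻¹) * (A * W)ᵀ *
          (A * W * Matrix.diagonal (fun i => (Real.sqrt (l i))⁻¹))
        = Matrix.diagonal (fun i => (Real.sqrt (l i))⁻¹) * ((A * W)ᵀ * (A * W)) *
          Matrix.diagonal (fun i => (Real.sqrt (l i))⁻¹) := by simp only [Matrix.mul_assoc]
      _ = 1 := by
        rw [h2, Matrix.diagonal_mul_diagonal, Matrix.diagonal_mul_diagonal]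
        rw [← Matrix.diagonal_one]
        congr 1
        funext i
        have h4 := Real.mul_self_sqrt (hnn i)
        have h5 := (hs i).ne'
        field_simp
        nlinarith
  · rw [Matrix.mul_assoc (A * W), Matrix.diagonal_mul_diagonal]
    have : (fun i => (Real.sqrt (l i))⁻¹ * Real.sqrt (l i)) = fun _ => (1 : ℝ) := by
      funext i
      exact inv_mul_cancel₀ (hs i).ne'
    rw [this, Matrix.diagonal_one, Matrix.mul_one, Matrix.mul_assoc, (uT hW).2, Matrix.mul_one]

end Pool.Agent.Run7.h884.SS
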