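import Pool.Agent.Run7.h884.SS.Star
import Pool.Agent.H992R2.Gap

/-! The bound for the centred Gaussian matrix. -/

set_option autoImplicit false

namespace Pool.Agent.Run7.h884.SS

open MeasureTheory Set Matrix ProbabilityTheory
open scoped ENNReal
open Pool.Agent.H992R2 (gam mp_mulVec)

variable {n N : ℕ}

theorem absg : ENNReal.ofReal ((Real.sqrt (2 * Real.pi))⁻¹ * 2) ≤
    ∫⁻ g, ENNReal.ofReal |g| ∂(gaussianReal 0 1) := by
  have h1 : ∫⁻ g, ENNReal.ofReal |g| ∂(gaussianReal 0 1) =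
      ∫⁻ x : ℝ, ENNReal.ofReal ((Real.sqrt (2 * Real.pi))⁻¹ *
        (|x| * Real.exp (-(1 / 2) * |x| ^ 2))) := by
    rw [gaussianReal_of_var_ne_zero 0 one_ne_zero,
      lintegral_withDensity_eq_lintegral_mul _ (measurable_gaussianPDF 0 1) (by fun_prop)]
    refine lintegral_congr fun x => ?_
    rw [Pi.mul_apply, gaussianPDF_def, gaussianPDFReal_def]
    simp only [NNReal.coe_one, mul_one, sub_zero]
    rw [← ENNReal.ofReal_mul (by positivity)]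
    congr 1
    rw [sq_abs]
    have : -x ^ 2 / 2 = -(1 / 2) * x ^ 2 := by ring
    rw [this]
    ring
  have h2 : ∫ x : ℝ, (Real.sqrt (2 * Real.pi))⁻¹ * (|x| * Real.exp (-(1 / 2) * |x| ^ 2)) =
      (Real.sqrt (2 * Real.pi))⁻¹ * 2 := by
    rw [integral_const_mul]
    have h3 := integral_comp_abs (f := fun u : ℝ => u * Real.exp (-(1 / 2) * u ^ 2))
    rw [h3]
    have h4 := integral_rpow_mul_exp_neg_mul_rpow (p := 2) (q := 1) (b := 1 / 2) (by norm_num)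
      (by norm_num) (by norm_num)
    have h5 : ∫ x in Ioi (0 : ℝ), x * Real.exp (-(1 / 2) * x ^ 2) = 1 := by
      have e : ∀ x : ℝ, x * Real.exp (-(1 / 2) * x ^ 2) =
          x ^ (1 : ℝ) * Real.exp (-(1 / 2) * x ^ (2 : ℝ)) := by
        intro x
        rw [Real.rpow_one, Real.rpow_two]
      simp only [e]
      rw [h4]
      have e2 : -((1 : ℝ) + 1) / 2 = -1 := by norm_num
      have e3 : ((1 : ℝ) + 1) / 2 = 1 := by norm_num
      rw [e2, e3, Real.Gamma_one, Real.rpow_neg_one]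
      norm_num
    rw [h5]
    ring
  rw [h1, ← h2]
  by_cases hi : Integrable fun x : ℝ => (Real.sqrt (2 * Real.pi))⁻¹ *
      (|x| * Real.exp (-(1 / 2) * |x| ^ 2))
  · rw [ofReal_integral_eq_lintegral_ofReal hi]
    filter_upwards with x
    show (0 : ℝ) ≤ _
    positivity
  · rw [integral_undef hi, ENNReal.ofReal_zero]
    exact zero_le

theorem meas_joint (r : ℝ) : MeasurableSet {z : P n × ℝ | ∃ v : Fin n → ℝ, ∑ i, v i ^ 2 ≤ 1 ∧
    1 ≤ (r * z.2) ^ 2 * ∑ i, ((mt z.1)⁻¹.mulVec v) i ^ 2} := by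
  have hK : IsCompact {v : Fin n → ℝ | ∑ i, v i ^ 2 ≤ 1} := by
    refine (isCompact_closedBall (0 : Fin n → ℝ) 1).of_isClosed_subset
      (isClosed_le (by fun_prop) continuous_const) ?_
    intro v hv
    rw [mem_closedBall_zero_iff, pi_norm_le_iff_of_nonneg zero_le_one]
    intro i
    rw [Real.norm_eq_abs, ← sq_le_one_iff_abs_le_one]
    exact (Finset.single_le_sum (f := fun i => v i ^ 2) (fun i _ => sq_nonneg _)
      (Finset.mem_univ i)).trans hv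
  have hKs : CompactSpace {v : Fin n → ℝ | ∑ i, v i ^ 2 ≤ 1} := isCompact_iff_compactSpace.1 hK
  have hC : IsClosed {w : (P n × ℝ) × {v : Fin n → ℝ | ∑ i, v i ^ 2 ≤ 1} |
      (mt w.1.1).det ^ 2 ≤ (r * w.1.2) ^ 2 *
        ∑ i, ((mt w.1.1).adjugate.mulVec w.2.1) i ^ 2} := by
    have c0 : Continuous fun w : (P n × ℝ) × {v : Fin n → ℝ | ∑ i, v i ^ 2 ≤ 1} => mt w.1.1 :=
      cont_mt.comp (continuous_fst.comp continuous_fst)
    refine isClosed_le (c0.matrix_det.pow 2) ?_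
    refine Continuous.mul ?_ ?_
    · exact (continuous_const.mul (continuous_snd.comp continuous_fst)).pow 2
    · refine continuous_finsetSum _ fun i _ => Continuous.pow ?_ 2
      have c1 : Continuous fun w : (P n × ℝ) × {v : Fin n → ℝ | ∑ i, v i ^ 2 ≤ 1} =>
          (mt w.1.1).adjugate.mulVec w.2.1 :=
        c0.matrix_adjugate.matrix_mulVec (continuous_subtype_val.comp continuous_snd)
      exact (continuous_apply i).comp c1
  have hI := isClosedMap_fst_of_compactSpace _ hC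
  have hD : IsOpen {z : P n × ℝ | (mt z.1).det ≠ 0} :=
    isOpen_ne_fun (cont_mt.comp continuous_fst).matrix_det continuous_const
  have : {z : P n × ℝ | ∃ v : Fin n → ℝ, ∑ i, v i ^ 2 ≤ 1 ∧
      1 ≤ (r * z.2) ^ 2 * ∑ i, ((mt z.1)⁻¹.mulVec v) i ^ 2} =
      (Prod.fst '' {w : (P n × ℝ) × {v : Fin n → ℝ | ∑ i, v i ^ 2 ≤ 1} |
      (mt w.1.1).det ^ 2 ≤ (r * w.1.2) ^ 2 *
        ∑ i, ((mt w.1.1).adjugate.mulVec w.2.1) i ^ 2}) ∩
      {z : P n × ℝ | (mt z.1).det ≠ 0} := by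
    ext z
    constructor
    · rintro ⟨v, hv1, hv2⟩
      have hd : (mt z.1).det ≠ 0 := by
        intro h
        rw [sum_inv, h, _root_.inv_zero] at hv2
        norm_num at hv2
      refine ⟨⟨(z, ⟨v, hv1⟩), ?_, rfl⟩, hd⟩
      rw [sum_inv] at hv2
      have h1 : 0 < (mt z.1).det ^ 2 := by positivity
      show (mt z.1).det ^ 2 ≤ (r * z.2) ^ 2 * ∑ i, ((mt z.1).adjugate.mulVec v) i ^ 2
      calc (mt z.1).det ^ 2 = 1 * (mt z.1).det ^ 2 := by ring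
        _ ≤ ((r * z.2) ^ 2 * (((mt z.1).det⁻¹) ^ 2 *
            ∑ i, ((mt z.1).adjugate.mulVec v) i ^ 2)) * (mt z.1).det ^ 2 := by gcongr
        _ = _ := by field_simp
    · rintro ⟨⟨⟨z', ⟨v, hv1⟩⟩, hw, rfl⟩, hd⟩
      refine ⟨v, hv1, ?_⟩
      rw [sum_inv]
      have hw' : (mt z'.1).det ^ 2 ≤ (r * z'.2) ^ 2 *
        ∑ i, ((mt z'.1).adjugate.mulVec v) i ^ 2 := hw
      have hd' : (mt z'.1).det ≠ 0 := hd
      have h1 : 0 < (mt z'.1).det ^ 2 := by positivity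
      calc (1 : ℝ) = ((mt z'.1).det⁻¹) ^ 2 * (mt z'.1).det ^ 2 := by field_simp
        _ ≤ ((mt z'.1).det⁻¹) ^ 2 * ((r * z'.2) ^ 2 *
          ∑ i, ((mt z'.1).adjugate.mulVec v) i ^ 2) := by gcongr
        _ = _ := by ring
  rw [this]
  exact hI.measurableSet.inter hD.measurableSet

theorem meas_jw (r : ℝ) : MeasurableSet {z : P n × (Fin n → ℝ) |
    1 ≤ r ^ 2 * ∑ i, ((mt z.1)⁻¹.mulVec z.2) i ^ 2} := by
  refine measurableSet_le measurable_const (Measurable.const_mul ?_ _)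
  simp_rw [sum_inv]
  refine Measurable.mul ?_ ?_
  · exact (((cont_mt.comp continuous_fst).matrix_det.measurable).inv).pow_const 2
  · refine Continuous.measurable ?_
    refine continuous_finsetSum _ fun i _ => Continuous.pow ?_ 2
    have c1 : Continuous fun z : P n × (Fin n → ℝ) => (mt z.1).adjugate.mulVec z.2 :=
      (cont_mt.comp continuous_fst).matrix_adjugate.matrix_mulVec continuous_snd
    exact (continuous_apply i).comp c1

/-- the mean of the norm -/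
theorem mean_norm (hn : 0 < n) :
    ∫⁻ w, ENNReal.ofReal (nr w) ∂(gam (Fin n)) ≤ ENNReal.ofReal (Real.sqrt n) := by
  have hn' : (0 : ℝ) < n := by exact_mod_cast hn
  have hs : 0 < Real.sqrt n := Real.sqrt_pos.2 hn'
  have h1 : ∀ w : Fin n → ℝ, ENNReal.ofReal (nr w) ≤
      ENNReal.ofReal ((2 * Real.sqrt n)⁻¹) * (∑ i, ENNReal.ofReal (w i ^ 2)) +
        ENNReal.ofReal (Real.sqrt n / 2) := by
    intro w
    rw [← ENNReal.ofReal_sum_of_nonneg (fun i _ => sq_nonneg _),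
      ← ENNReal.ofReal_mul (by positivity), ← ENNReal.ofReal_add (mul_nonneg (by positivity)
        (Finset.sum_nonneg fun i _ => sq_nonneg _)) (by positivity)]
    apply ENNReal.ofReal_le_ofReal
    have h2 : 0 ≤ ∑ i, w i ^ 2 := Finset.sum_nonneg fun i _ => sq_nonneg _
    have h3 : nr w ^ 2 = ∑ i, w i ^ 2 := Real.sq_sqrt h2
    rw [← h3]
    have h4 : 0 ≤ (nr w - Real.sqrt n) ^ 2 := sq_nonneg _
    have h5 : (2 * Real.sqrt n)⁻¹ * nr w ^ 2 + Real.sqrt n / 2 - nr w =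
        (2 * Real.sqrt n)⁻¹ * (nr w - Real.sqrt n) ^ 2 := by
      field_simp
      ring
    have h6 : 0 ≤ (2 * Real.sqrt n)⁻¹ * (nr w - Real.sqrt n) ^ 2 := by positivity
    linarith
  refine (lintegral_mono h1).trans ?_
  rw [lintegral_add_right _ measurable_const, lintegral_const_mul _ (by fun_prop),
    lintegral_finsetSum _ (fun i _ => by fun_prop), lintegral_const]
  have h7 : ∀ i : Fin n, ∫⁻ w, ENNReal.ofReal (w i ^ 2) ∂(gam (Fin n)) = 1 := by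
    intro i
    have hp := measurePreserving_eval (fun _ : Fin n => gaussianReal 0 1) i
    have h8 := Pool.Agent.H992R2.lintegral_sq_gaussian 1
    have h9 : ∫⁻ w, ENNReal.ofReal (w i ^ 2) ∂(gam (Fin n)) =
        ∫⁻ y, ENNReal.ofReal (y ^ 2) ∂(gaussianReal 0 1) :=
      hp.lintegral_comp (f := fun y => ENNReal.ofReal (y ^ 2)) (by fun_prop)
    rw [h9, h8]
    simp
  simp only [h7, Finset.sum_const, Finset.card_univ, Fintype.card_fin, measure_univ, mul_one,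
    nsmul_eq_mul]
  rw [← ENNReal.ofReal_natCast, ← ENNReal.ofReal_mul (by positivity),
    ← ENNReal.ofReal_add (by positivity) (by positivity)]
  apply ENNReal.ofReal_le_ofReal
  have h10 : (2 * Real.sqrt n)⁻¹ * n = Real.sqrt n / 2 := by
    have := Real.mul_self_sqrt hn'.le
    field_simp
    nlinarith
  rw [h10]
  linarith

theorem upper {r : ℝ} (hr : 0 ≤ r) :
    ∫⁻ w, gam (Fin (N + 1) × Fin (N + 1)) {x | 1 ≤ r ^ 2 * ∑ i, ((mt x)⁻¹.mulVec w) i ^ 2}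
      ∂(gam (Fin (N + 1))) ≤
      ENNReal.ofReal ((Real.sqrt (2 * Real.pi))⁻¹ * 2 * (r * Real.sqrt (N + 1 : ℕ))) := by
  calc _ ≤ ∫⁻ w : Fin (N + 1) → ℝ, ENNReal.ofReal ((Real.sqrt (2 * Real.pi))⁻¹ * 2 * r) *
        ENNReal.ofReal (nr w) ∂(gam (Fin (N + 1))) := by
        refine lintegral_mono fun w => (w_bound hr w).trans (le_of_eq ?_)
        rw [← ENNReal.ofReal_mul (by positivity)]
        congr 1
        ring
    _ = ENNReal.ofReal ((Real.sqrt (2 * Real.pi))⁻¹ * 2 * r) *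
        ∫⁻ w : Fin (N + 1) → ℝ, ENNReal.ofReal (nr w) ∂(gam (Fin (N + 1))) :=
        lintegral_const_mul' _ _ ENNReal.ofReal_ne_top
    _ ≤ ENNReal.ofReal ((Real.sqrt (2 * Real.pi))⁻¹ * 2 * r) *
        ENNReal.ofReal (Real.sqrt (N + 1 : ℕ)) := by
        gcongr
        exact mean_norm (Nat.succ_pos N)
    _ = _ := by
        rw [← ENNReal.ofReal_mul (by positivity)]
        congr 1
        ring

theorem lower_pt {r : ℝ} (x : P (N + 1)) (hx : (mt x).det ≠ 0) :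
    gaussianReal 0 1 {g | ∃ v : Fin (N + 1) → ℝ, ∑ i, v i ^ 2 ≤ 1 ∧
      1 ≤ (r * g) ^ 2 * ∑ i, ((mt x)⁻¹.mulVec v) i ^ 2} ≤
    gam (Fin (N + 1)) {w | 1 ≤ r ^ 2 * ∑ i, ((mt x)⁻¹.mulVec w) i ^ 2} := by
  obtain ⟨U, hU, V, hV, s, hs, hmon, hsvd⟩ := svd (mt x) hx
  have hUi : U⁻¹ = Uᵀ := Matrix.inv_eq_left_inv (uT hU).1
  have hVi : V⁻¹ = Vᵀ := Matrix.inv_eq_left_inv (uT hV).1
  have hDi : (Matrix.diagonal s)⁻¹ = Matrix.diagonal fun i => (s i)⁻¹ := by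
    apply Matrix.inv_eq_left_inv
    rw [Matrix.diagonal_mul_diagonal, ← Matrix.diagonal_one]
    congr 1
    funext i
    exact inv_mul_cancel₀ (hs i).ne'
  have hinv : ∀ v : Fin (N + 1) → ℝ, ∑ i, ((mt x)⁻¹.mulVec v) i ^ 2 =
      ∑ i, (Uᵀ.mulVec v) i ^ 2 / (s i) ^ 2 := by
    intro v
    rw [hsvd, Matrix.mul_inv_rev, Matrix.mul_inv_rev, hUi, hVi, hDi, ← Matrix.mulVec_mulVec,
      sq_orth (uTmem hV), ← Matrix.mulVec_mulVec]
    refine Finset.sum_congr rfl fun i _ => ?_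
    rw [Matrix.mulVec_diagonal, mul_pow, inv_pow]
    ring
  have hs0 : 0 < s 0 := hs 0
  have h1 : {g : ℝ | ∃ v : Fin (N + 1) → ℝ, ∑ i, v i ^ 2 ≤ 1 ∧
      1 ≤ (r * g) ^ 2 * ∑ i, ((mt x)⁻¹.mulVec v) i ^ 2} ⊆ {g | s 0 ^ 2 ≤ r ^ 2 * g ^ 2} := by
    rintro g ⟨v, hv1, hv2⟩
    rw [hinv] at hv2
    have h2 : ∑ i, (Uᵀ.mulVec v) i ^ 2 / (s i) ^ 2 ≤ ∑ i, (Uᵀ.mulVec v) i ^ 2 / (s 0) ^ 2 := by
      refine Finset.sum_le_sum fun i _ => ?_
      have h3 : s 0 ≤ s i := hmon (Fin.zero_le i)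
      exact div_le_div_of_nonneg_left (sq_nonneg _) (by positivity) (by gcongr)
    rw [← Finset.sum_div, sq_orth (uTmem hU)] at h2
    have h4 : ∑ i, (Uᵀ.mulVec v) i ^ 2 / (s i) ^ 2 ≤ 1 / s 0 ^ 2 := by
      refine h2.trans ?_
      gcongr
    have h5 : (1 : ℝ) ≤ (r * g) ^ 2 * (1 / s 0 ^ 2) :=
      hv2.trans (mul_le_mul_of_nonneg_left h4 (sq_nonneg _))
    have h6 : 0 < s 0 ^ 2 := by positivity
    show s 0 ^ 2 ≤ r ^ 2 * g ^ 2
    rw [mul_one_div, le_div_iff₀ h6, one_mul, mul_pow] at h5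
    exact h5
  have h2 : (fun w : Fin (N + 1) → ℝ => Uᵀ.mulVec w) ⁻¹' {w | s 0 ^ 2 ≤ r ^ 2 * w 0 ^ 2} ⊆
      {w | 1 ≤ r ^ 2 * ∑ i, ((mt x)⁻¹.mulVec w) i ^ 2} := by
    intro w hw
    have hw' : s 0 ^ 2 ≤ r ^ 2 * (Uᵀ.mulVec w) 0 ^ 2 := hw
    show 1 ≤ r ^ 2 * ∑ i, ((mt x)⁻¹.mulVec w) i ^ 2
    rw [hinv]
    have h3 : (Uᵀ.mulVec w) 0 ^ 2 / (s 0) ^ 2 ≤ ∑ i, (Uᵀ.mulVec w) i ^ 2 / (s i) ^ 2 :=
      Finset.single_le_sum (f := fun i => (Uᵀ.mulVec w) i ^ 2 / (s i) ^ 2)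
        (fun i _ => by positivity) (Finset.mem_univ 0)
    have h6 : 0 < s 0 ^ 2 := by positivity
    calc (1 : ℝ) ≤ r ^ 2 * (Uᵀ.mulVec w) 0 ^ 2 / s 0 ^ 2 := by
          rw [le_div_iff₀ h6, one_mul]; exact hw'
      _ = r ^ 2 * ((Uᵀ.mulVec w) 0 ^ 2 / s 0 ^ 2) := by ring
      _ ≤ _ := by gcongr
  have hm3 : MeasurableSet {w : Fin (N + 1) → ℝ | s 0 ^ 2 ≤ r ^ 2 * w 0 ^ 2} :=
    measurableSet_le measurable_const (by fun_prop)
  have hm4 : MeasurableSet {g : ℝ | s 0 ^ 2 ≤ r ^ 2 * g ^ 2} :=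
    measurableSet_le measurable_const (by fun_prop)
  have hmp := mp_mulVec Uᵀ (by rw [Matrix.transpose_transpose]; exact (uT hU).2)
  have hev := measurePreserving_eval (fun _ : Fin (N + 1) => gaussianReal 0 1) 0
  calc _ ≤ gaussianReal 0 1 {g | s 0 ^ 2 ≤ r ^ 2 * g ^ 2} := measure_mono h1
    _ = gam (Fin (N + 1)) {w | s 0 ^ 2 ≤ r ^ 2 * w 0 ^ 2} := by
        rw [← hev.measure_preimage hm4.nullMeasurableSet]
        rfl
    _ = gam (Fin (N + 1)) ((fun w : Fin (N + 1) → ℝ => Uᵀ.mulVec w) ⁻¹'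
        {w | s 0 ^ 2 ≤ r ^ 2 * w 0 ^ 2}) := (hmp.measure_preimage hm3.nullMeasurableSet).symm
    _ ≤ _ := measure_mono h2

end Pool.Agent.Run7.h884.SS
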