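import Pool.Agent.Run7.h884.SS.Shift
import Pool.Agent.H992R2.Sec
import Pool.Agent.H459R3.Gauss

/-! The Euclidean norm of a column of the inverse of a Gaussian matrix. -/

set_option autoImplicit false

namespace Pool.Agent.Run7.h884.SS

open MeasureTheory Set Matrix ProbabilityTheory
open scoped ENNReal
open Pool.Agent.H992R2 (gam muM mp_curry hh hh_mul_self hh_transpose hh_mulVec ez)

variable {n : ℕ}

theorem gauss_int {κ : ℝ} (hκ : 0 ≤ κ) :
    gaussianReal 0 1 {t | |t| ≤ κ} ≤ ENNReal.ofReal ((Real.sqrt (2 * Real.pi))⁻¹ * (2 * κ)) := by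
  have hset : {t : ℝ | |t| ≤ κ} = Icc (-κ) κ := by
    ext t
    simp only [mem_ofPred_eq, abs_le, mem_Icc]
  rw [hset, gaussianReal_of_var_ne_zero 0 one_ne_zero, withDensity_apply _ measurableSet_Icc]
  have hpdf : ∀ x, gaussianPDF 0 1 x ≤ ENNReal.ofReal ((Real.sqrt (2 * Real.pi))⁻¹) := by
    intro x
    rw [gaussianPDF_def]
    apply ENNReal.ofReal_le_ofReal
    rw [gaussianPDFReal_def]
    simp only [NNReal.coe_one, mul_one, sub_zero]
    have h1 : Real.exp (-x ^ 2 / 2) ≤ 1 := by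
      rw [Real.exp_le_one_iff]
      have := sq_nonneg x
      linarith
    calc (Real.sqrt (2 * Real.pi))⁻¹ * Real.exp (-x ^ 2 / 2) ≤
        (Real.sqrt (2 * Real.pi))⁻¹ * 1 := by gcongr
      _ = _ := mul_one _
  calc ∫⁻ a in Icc (-κ) κ, gaussianPDF 0 1 a
      ≤ ∫⁻ a in Icc (-κ) κ, ENNReal.ofReal ((Real.sqrt (2 * Real.pi))⁻¹) := lintegral_mono hpdf
    _ = ENNReal.ofReal ((Real.sqrt (2 * Real.pi))⁻¹) * ENNReal.ofReal (κ - (-κ)) := by
        rw [setLIntegral_const, Real.volume_Icc]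
    _ = _ := by
        rw [← ENNReal.ofReal_mul (by positivity)]
        congr 2
        ring

theorem gauss_slab {N : ℕ} (ν : Fin N → ℝ) (hν : ∑ i, ν i ^ 2 = 1) {κ : ℝ} (hκ : 0 ≤ κ) :
    gam (Fin N) {a | |∑ i, a i * ν i| ≤ κ} ≤
      ENNReal.ofReal ((Real.sqrt (2 * Real.pi))⁻¹ * (2 * κ)) := by
  have hl : H459R3.l2 ν = 1 := by
    rw [H459R3.l2_eq, hν, Real.sqrt_one]
  have h := H459R3.law_inner hl
  refine le_trans (le_of_eq ?_) (gauss_int hκ)
  rw [← h, Measure.map_apply (by fun_prop) (measurableSet_le (by fun_prop) measurable_const)]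
  rfl

theorem col_bound {N : ℕ} (B : Fin N → Fin (N + 1) → ℝ) {ρ : ℝ} (hρ : 0 ≤ ρ) :
    gam (Fin (N + 1)) {a | 1 ≤ ρ ^ 2 * ∑ i, ((Matrix.of (Fin.cons a B) :
        Matrix (Fin (N + 1)) (Fin (N + 1)) ℝ)⁻¹.mulVec (ez N)) i ^ 2} ≤
      ENNReal.ofReal ((Real.sqrt (2 * Real.pi))⁻¹ * (2 * ρ)) := by
  set A : (Fin (N + 1) → ℝ) → Matrix (Fin (N + 1)) (Fin (N + 1)) ℝ :=
    fun a => Matrix.of (Fin.cons a B) with hA
  set S : Set (Fin (N + 1) → ℝ) := {a | 1 ≤ ρ ^ 2 * ∑ i, ((A a)⁻¹.mulVec (ez N)) i ^ 2} with hS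
  rcases S.eq_empty_or_nonempty with h0 | ⟨a1, ha1⟩
  · change gam (Fin (N + 1)) S ≤ _
    rw [h0, measure_empty]
    exact zero_le
  have hdet : ∀ a ∈ S, (A a).det ≠ 0 := by
    intro a ha h
    have h1 : (1 : ℝ) ≤ ρ ^ 2 * ∑ i, ((A a)⁻¹.mulVec (ez N)) i ^ 2 := ha
    rw [sum_inv, h, _root_.inv_zero] at h1
    norm_num at h1
  set b1 := (A a1)⁻¹.mulVec (ez N) with hb1
  have hAb1 : (A a1).mulVec b1 = ez N := by
    rw [hb1, Matrix.mulVec_mulVec, Matrix.mul_nonsing_inv _ (isUnit_iff_ne_zero.mpr (hdet a1 ha1)),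
      Matrix.one_mulVec]
  set m2 : ℝ := ∑ i, b1 i ^ 2 with hm2
  have hm2pos : 0 < m2 := by
    have h1 : (1 : ℝ) ≤ ρ ^ 2 * m2 := ha1
    by_contra h
    push Not at h
    nlinarith [sq_nonneg ρ]
  set ν : Fin (N + 1) → ℝ := (Real.sqrt m2)⁻¹ • b1 with hν
  have hs0 : 0 < Real.sqrt m2 := Real.sqrt_pos.2 hm2pos
  have hνν : ∑ i, ν i ^ 2 = 1 := by
    have : ∀ i, ν i ^ 2 = m2⁻¹ * b1 i ^ 2 := by
      intro i
      rw [hν, Pi.smul_apply, smul_eq_mul, mul_pow, inv_pow, Real.sq_sqrt hm2pos.le]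
    simp only [this]
    rw [← Finset.mul_sum, ← hm2, inv_mul_cancel₀ hm2pos.ne']
  have hrest : ∀ i, dotProduct (B i) ν = 0 := by
    intro i
    have h1 := congrFun hAb1 (Fin.succ i)
    have h3 : (A a1).mulVec b1 (Fin.succ i) = dotProduct (B i) b1 := by
      rw [Matrix.mulVec]
      congr 1
    rw [hν, dotProduct_smul, ← h3, h1]
    simp [ez]
  have hAν : ∀ a, (A a).mulVec ν = (∑ i, a i * ν i) • ez N := by
    intro a
    funext i
    refine Fin.cases ?_ (fun i => ?_) i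
    · rw [Matrix.mulVec]
      have : (fun j => A a 0 j) = a := by
        funext j
        simp [hA]
      rw [this]
      simp [ez, dotProduct]
    · rw [Matrix.mulVec]
      have : (fun j => A a (Fin.succ i) j) = B i := by
        funext j
        simp [hA]
      rw [this, hrest]
      simp [ez]
  have hsub : S ⊆ {a | |∑ i, a i * ν i| ≤ ρ} := by
    intro a ha
    have h1 : (1 : ℝ) ≤ ρ ^ 2 * ∑ i, ((A a)⁻¹.mulVec (ez N)) i ^ 2 := ha
    have h2 : ν = (∑ i, a i * ν i) • (A a)⁻¹.mulVec (ez N) := by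
      have h3 : (A a)⁻¹.mulVec ((A a).mulVec ν) = ν := by
        rw [Matrix.mulVec_mulVec, Matrix.nonsing_inv_mul _ (isUnit_iff_ne_zero.mpr (hdet a ha)),
          Matrix.one_mulVec]
      rw [hAν, Matrix.mulVec_smul] at h3
      exact h3.symm
    have h4 : (∑ i, a i * ν i) ^ 2 * ∑ i, ((A a)⁻¹.mulVec (ez N)) i ^ 2 = 1 := by
      rw [← hνν]
      conv_rhs => rw [h2]
      rw [Finset.mul_sum]
      refine Finset.sum_congr rfl fun i _ => ?_
      rw [Pi.smul_apply, smul_eq_mul, mul_pow]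
    show |∑ i, a i * ν i| ≤ ρ
    apply abs_le_of_sq_le_sq _ hρ
    set Q : ℝ := ∑ i, ((A a)⁻¹.mulVec (ez N)) i ^ 2
    have hQ : 0 ≤ Q := Finset.sum_nonneg fun i _ => sq_nonneg _
    by_contra hlt
    push Not at hlt
    have hQpos : 0 < Q := by
      by_contra h
      push Not at h
      nlinarith [sq_nonneg ρ]
    nlinarith
  exact (measure_mono hsub).trans (gauss_slab ν hνν hρ)

theorem meas_iv (w : Fin n → ℝ) : Measurable fun x : P n => ∑ i, ((mt x)⁻¹.mulVec w) i ^ 2 := by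
  simp_rw [sum_inv]
  refine Measurable.mul ?_ ?_
  · exact (cont_mt.matrix_det.measurable.inv).pow_const 2
  · refine Continuous.measurable ?_
    refine continuous_finsetSum _ fun i _ => Continuous.pow ?_ 2
    have c1 : Continuous fun x : P n => (mt x).adjugate.mulVec w :=
      cont_mt.matrix_adjugate.matrix_mulVec continuous_const
    exact (continuous_apply i).comp c1

theorem e0_bound {N : ℕ} {ρ : ℝ} (hρ : 0 ≤ ρ) :
    gam (Fin (N + 1) × Fin (N + 1)) {x | 1 ≤ ρ ^ 2 * ∑ i, ((mt x)⁻¹.mulVec (ez N)) i ^ 2} ≤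
      ENNReal.ofReal ((Real.sqrt (2 * Real.pi))⁻¹ * (2 * ρ)) := by
  have hS : MeasurableSet {x : P (N + 1) | 1 ≤ ρ ^ 2 * ∑ i, ((mt x)⁻¹.mulVec (ez N)) i ^ 2} :=
    measurableSet_le measurable_const ((meas_iv (ez N)).const_mul _)
  rw [← (mp_curry (N + 1) (N + 1)).measure_preimage hS.nullMeasurableSet]
  have hSm := (mp_curry (N + 1) (N + 1)).measurable hS
  obtain ⟨S, hSdef⟩ : ∃ S, S = (MeasurableEquiv.curry (Fin (N + 1)) (Fin (N + 1)) ℝ).symm ⁻¹'
    {x : P (N + 1) | 1 ≤ ρ ^ 2 * ∑ i, ((mt x)⁻¹.mulVec (ez N)) i ^ 2} := ⟨_, rfl⟩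
  rw [← hSdef] at hSm ⊢
  have hsplit := measurePreserving_piFinSuccAbove
    (fun _ : Fin (N + 1) => gam (Fin (N + 1))) 0
  set e := MeasurableEquiv.piFinSuccAbove (fun _ : Fin (N + 1) => (Fin (N + 1) → ℝ)) 0 with he
  have hes : ∀ z : (Fin (N + 1) → ℝ) × (Fin N → Fin (N + 1) → ℝ), e.symm z = Fin.cons z.1 z.2 := by
    intro z
    exact Fin.insertNth_zero' z.1 z.2
  have h1 : muM (N + 1) (N + 1) S =
      ((gam (Fin (N + 1))).prod (Measure.pi fun _ : Fin N => gam (Fin (N + 1)))) (e.symm ⁻¹' S) := by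
    rw [← hsplit.measure_preimage (e.symm.measurable hSm).nullMeasurableSet]
    congr 1
    ext G
    rw [mem_preimage, mem_preimage]
    rw [show (MeasurableEquiv.piFinSuccAbove (fun _ : Fin (N + 1) => (Fin (N + 1) → ℝ)) 0) G = e G
      from rfl, e.symm_apply_apply]
  rw [h1, Measure.prod_apply_symm (e.symm.measurable hSm)]
  calc _ ≤ ∫⁻ _B : Fin N → Fin (N + 1) → ℝ, ENNReal.ofReal ((Real.sqrt (2 * Real.pi))⁻¹ * (2 * ρ))
        ∂(Measure.pi fun _ : Fin N => gam (Fin (N + 1))) := by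
        refine lintegral_mono fun B => ?_
        refine le_trans (le_of_eq ?_) (col_bound B hρ)
        congr 1
        ext a
        simp only [mem_preimage, hes, hSdef]
        rfl
    _ = _ := by simp

/-- Euclidean norm -/
noncomputable def nr (w : Fin n → ℝ) : ℝ := Real.sqrt (∑ i, w i ^ 2)

theorem w_bound {N : ℕ} {r : ℝ} (hr : 0 ≤ r) (w : Fin (N + 1) → ℝ) :
    gam (Fin (N + 1) × Fin (N + 1)) {x | 1 ≤ r ^ 2 * ∑ i, ((mt x)⁻¹.mulVec w) i ^ 2} ≤
      ENNReal.ofReal ((Real.sqrt (2 * Real.pi))⁻¹ * (2 * (r * nr w))) := by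
  by_cases hw : w = 0
  · have : {x : P (N + 1) | 1 ≤ r ^ 2 * ∑ i, ((mt x)⁻¹.mulVec w) i ^ 2} = ∅ := by
      ext x
      simp [hw]
    rw [this, measure_empty]
    exact zero_le
  have hS2 : 0 < ∑ i, w i ^ 2 := by
    obtain ⟨i, hi⟩ := Function.ne_iff.1 hw
    exact Finset.sum_pos' (fun i _ => sq_nonneg _) ⟨i, Finset.mem_univ i, by
      have : w i ≠ 0 := hi
      positivity⟩
  have hn : 0 < nr w := Real.sqrt_pos.2 hS2
  set u : Fin (N + 1) → ℝ := (nr w)⁻¹ • w with hu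
  have huu : dotProduct u u = 1 := by
    rw [hu, smul_dotProduct, dotProduct_smul, smul_eq_mul, smul_eq_mul]
    have h1 : dotProduct w w = nr w ^ 2 := by
      rw [nr, Real.sq_sqrt hS2.le]
      simp only [dotProduct, sq]
    rw [h1]
    field_simp
  have hez : dotProduct (ez N) (ez N) = 1 := by simp [ez]
  set Q := hh u (ez N) with hQ
  have hQt : Qᵀ = Q := hh_transpose _ _
  have hQQ : Q * Q = 1 := hh_mul_self _ _
  have hQm : Q ∈ Matrix.unitaryGroup (Fin (N + 1)) ℝ := uMem (by rw [hQt, hQQ])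
  have hQu : Q.mulVec u = ez N := hh_mulVec _ _ (by rw [hez, huu])
  have hQe : Q.mulVec (ez N) = u := by rw [← hQu, Matrix.mulVec_mulVec, hQQ, Matrix.one_mulVec]
  have hQi : Q⁻¹ = Q := Matrix.inv_eq_left_inv hQQ
  have hwu : w = nr w • u := by
    rw [hu, smul_smul, mul_inv_cancel₀ hn.ne', one_smul]
  set S0 : Set (P (N + 1)) := {x | 1 ≤ (r * nr w) ^ 2 * ∑ i, ((mt x)⁻¹.mulVec (ez N)) i ^ 2}
    with hS0
  have hS0m : MeasurableSet S0 :=
    measurableSet_le measurable_const ((meas_iv (ez N)).const_mul _)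
  have hset : {x : P (N + 1) | 1 ≤ r ^ 2 * ∑ i, ((mt x)⁻¹.mulVec w) i ^ 2} = act Q 1 ⁻¹' S0 := by
    ext x
    have h1 : ∑ i, ((mt x)⁻¹.mulVec w) i ^ 2 =
        nr w ^ 2 * ∑ i, ((mt (act Q 1 x))⁻¹.mulVec (ez N)) i ^ 2 := by
      rw [mt_act, Matrix.mul_one, Matrix.mul_inv_rev, hQi, ← Matrix.mulVec_mulVec, hQe]
      conv_lhs => rw [hwu, Matrix.mulVec_smul]
      rw [Finset.mul_sum]
      refine Finset.sum_congr rfl fun i _ => ?_
      rw [Pi.smul_apply, smul_eq_mul, mul_pow]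
    simp only [mem_ofPred_eq, mem_preimage, hS0]
    rw [h1, mul_pow, mul_assoc]
  have h2 := gam_inv hQm (one_mem (Matrix.unitaryGroup (Fin (N + 1)) ℝ)) (S0.indicator 1)
    (measurable_one.indicator hS0m)
  rw [lintegral_indicator_one hS0m] at h2
  have h3 : ∫⁻ x, S0.indicator 1 (act Q 1 x) ∂(gam (Fin (N + 1) × Fin (N + 1))) =
      gam (Fin (N + 1) × Fin (N + 1)) (act Q 1 ⁻¹' S0) := by
    rw [← lintegral_indicator_one (meas_act Q 1 hS0m)]
    rfl
  rw [hset, ← h3, h2]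
  exact e0_bound (by positivity)

end Pool.Agent.Run7.h884.SS
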