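import Pool.Agent.Run7.h884.SS.Base

/-! Scaling of Lebesgue measure on symmetric matrices under congruence. -/

set_option autoImplicit false

namespace Pool.Agent.Run7.h884.SS

open MeasureTheory Set Matrix
open scoped ENNReal
open Pool.Agent.H888R2.KC

variable {n : ℕ}

theorem prod_pairs (d : Fin n → ℝ) :
    (∏ i, d i ^ 2) * ∏ p : {p : Fin n × Fin n // p.1 < p.2}, (d p.1.1 * d p.1.2) =
      (∏ i, d i) ^ (n + 1) := by
  classical
  have h1 : ∏ p : {p : Fin n × Fin n // p.1 < p.2}, (d p.1.1 * d p.1.2) =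
      ∏ i, ∏ j, (if i < j then d i * d j else 1) := by
    rw [← Fintype.prod_prod_type' (f := fun i j => (if i < j then d i * d j else 1))]
    rw [← Finset.prod_filter]
    exact (Finset.prod_subtype (p := fun p : Fin n × Fin n => p.1 < p.2)
      (Finset.univ.filter fun p : Fin n × Fin n => p.1 < p.2)
      (fun x => by simp) (fun p => d p.1 * d p.2)).symm
  have h2 : ∏ i, ∏ j, (if i < j then d i * d j else 1) =
      (∏ i, ∏ j, (if i < j then d i else 1)) * ∏ i, ∏ j, (if j < i then d i else 1) := by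
    rw [Finset.prod_comm (f := fun i j => (if j < i then d i else 1)), ← Finset.prod_mul_distrib]
    refine Finset.prod_congr rfl fun i _ => ?_
    rw [← Finset.prod_mul_distrib]
    refine Finset.prod_congr rfl fun j _ => ?_
    split_ifs <;> simp
  have h3 : ∀ i, d i * ((∏ j, (if i < j then d i else 1)) * ∏ j, (if j < i then d i else 1)) =
      d i ^ n := by
    intro i
    have : d i = ∏ j, (if i = j then d i else 1) := by
      rw [Finset.prod_ite_eq]; simp
    conv_lhs => rw [this]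
    have h4 : ∀ j, (if i = j then d i else 1) * ((if i < j then d i else 1) *
        (if j < i then d i else 1)) = d i := by
      intro j
      rcases lt_trichotomy i j with h | h | h
      · rw [if_neg h.ne, if_pos h, if_neg h.asymm]; ring
      · rw [if_pos h, if_neg (by rw [h]; exact lt_irrefl _), if_neg (by rw [h]; exact lt_irrefl _)]
        ring
      · rw [if_neg h.ne', if_neg h.asymm, if_pos h]; ring
    have h5 : d i ^ n = ∏ _j : Fin n, d i := by simp
    rw [h5]
    calc _ = (∏ j, (if i = j then d i else 1)) * ((∏ j, (if i < j then d i else 1)) *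
        ∏ j, (if j < i then d i else 1)) := by rw [← this]
      _ = ∏ j : Fin n, d i := by
        rw [← Finset.prod_mul_distrib, ← Finset.prod_mul_distrib]
        exact Finset.prod_congr rfl fun j _ => h4 j
  rw [h1, h2]
  calc (∏ i, d i ^ 2) * ((∏ i, ∏ j, (if i < j then d i else 1)) *
        ∏ i, ∏ j, (if j < i then d i else 1))
      = ∏ i, (d i * (d i * ((∏ j, (if i < j then d i else 1)) *
          ∏ j, (if j < i then d i else 1)))) := by
        rw [← Finset.prod_mul_distrib, ← Finset.prod_mul_distrib]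
        exact Finset.prod_congr rfl fun i _ => by ring
    _ = ∏ i, d i ^ (n + 1) := by
        refine Finset.prod_congr rfl fun i _ => ?_
        rw [h3]; ring
    _ = _ := by rw [Finset.prod_pow]

/-- weights of the diagonal action -/
def wt (d : Fin n → ℝ) : II ℝ n → ℝ :=
  Sum.elim (fun i => d i ^ 2) (fun q => d q.1.1.1 * d q.1.1.2)

theorem prod_wt (d : Fin n → ℝ) : ∏ k, wt d k = (∏ i, d i) ^ (n + 1) := by
  rw [← prod_pairs, Fintype.prod_sum_type]
  simp only [wt, Sum.elim_inl, Sum.elim_inr]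
  congr 1
  rw [Fintype.prod_prod_type]
  refine Finset.prod_congr rfl fun p _ => ?_
  simp

theorem cj_diag' (d : Fin n → ℝ) (x : S n) :
    cj (Ph n) (Matrix.diagonal d) x = WithLp.toLp 2 (fun k => wt d k * x k) := by
  apply W7x.Phi_inj (frm n)
  rw [Phi_cj (frm n), Matrix.conjTranspose_eq_transpose_of_trivial, Matrix.diagonal_transpose]
  ext i j
  rw [Matrix.mul_diagonal, Matrix.diagonal_mul]
  simp only [F0, LinearMap.coe_mk, AddHom.coe_mk, Matrix.of_apply]
  rcases lt_trichotomy i j with h | h | h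
  · rw [dif_pos h, dif_pos h]
    simp only [up, wt, Sum.elim_inr, smul_eq_mul, Finset.mul_sum, Finset.sum_mul]
    refine Finset.sum_congr rfl fun t _ => ?_
    ring
  · subst h
    rw [dif_neg (lt_irrefl _), dif_neg (lt_irrefl _), dif_neg (lt_irrefl _), dif_neg (lt_irrefl _)]
    simp only [wt, Sum.elim_inl, RCLike.ofReal_real_eq_id, id_eq]
    ring
  · rw [dif_neg h.asymm, dif_pos h, dif_neg h.asymm, dif_pos h]
    simp only [up, wt, Sum.elim_inr, smul_eq_mul, star_trivial, Finset.mul_sum, Finset.sum_mul]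
    refine Finset.sum_congr rfl fun t _ => ?_
    ring

theorem meas_cj (g : Matrix (Fin n) (Fin n) ℝ) : Measurable (cj (Ph n) g) :=
  (LinearMap.continuous_of_finiteDimensional _).measurable

/-- the scaling property -/
def Sc (g : Matrix (Fin n) (Fin n) ℝ) : Prop :=
  ∀ F : S n → ℝ≥0∞, Measurable F →
    ∫⁻ x, F (cj (Ph n) g x) = ENNReal.ofReal ((|g.det| ^ (n + 1))⁻¹) * ∫⁻ x, F x

theorem Sc_mul {g h : Matrix (Fin n) (Fin n) ℝ} (hg : Sc g) (hh : Sc h) : Sc (g * h) := by
  intro F hF
  simp_rw [← cj_cj (frm n)]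
  rw [hh (fun y => F (cj (Ph n) g y)) (hF.comp (meas_cj g)), hg F hF, ← mul_assoc,
    ← ENNReal.ofReal_mul (by positivity), Matrix.det_mul, abs_mul]
  congr 2
  rw [mul_pow, mul_inv]
  ring

theorem Sc_orth {U : Matrix (Fin n) (Fin n) ℝ} (hU : U ∈ Matrix.unitaryGroup (Fin n) ℝ) :
    Sc U := by
  intro F hF
  rw [(mp_cj (frm n) U hU).lintegral_comp hF, uDet hU]
  simp

theorem Sc_diag (d : Fin n → ℝ) (hd : ∀ i, 0 < d i) : Sc (Matrix.diagonal d) := by
  intro F hF
  have hw : (Matrix.diagonal (wt d)).det = (∏ i, d i) ^ (n + 1) := by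
    rw [Matrix.det_diagonal, prod_wt]
  have hp : 0 < ∏ i, d i := Finset.prod_pos fun i _ => hd i
  have hw0 : (Matrix.diagonal (wt d)).det ≠ 0 := by
    rw [hw]; positivity
  have h1 := Real.map_matrix_volume_pi_eq_smul_volume_pi hw0
  have h2 : Measurable (Matrix.toLin' (Matrix.diagonal (wt d))) :=
    (LinearMap.continuous_of_finiteDimensional _).measurable
  have hG : Measurable fun y : II ℝ n → ℝ => F (WithLp.toLp 2 y) :=
    hF.comp (PiLp.volume_preserving_toLp _).measurable
  have e1 : ∀ x : S n, F (cj (Ph n) (Matrix.diagonal d) x) =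
      (fun y : II ℝ n → ℝ => F (WithLp.toLp 2 (Matrix.toLin' (Matrix.diagonal (wt d)) y)))
        (WithLp.ofLp x) := by
    intro x
    rw [cj_diag']
    congr 2
    funext k
    rw [Matrix.toLin'_apply, Matrix.mulVec_diagonal]
  simp_rw [e1]
  have e2 : ∫⁻ x : S n, (fun y : II ℝ n → ℝ => F (WithLp.toLp 2
      (Matrix.toLin' (Matrix.diagonal (wt d)) y))) (WithLp.ofLp x) =
      ∫⁻ y : II ℝ n → ℝ, F (WithLp.toLp 2 (Matrix.toLin' (Matrix.diagonal (wt d)) y)) :=
    (PiLp.volume_preserving_ofLp (II ℝ n)).lintegral_comp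
      (f := fun y : II ℝ n → ℝ => F (WithLp.toLp 2
        (Matrix.toLin' (Matrix.diagonal (wt d)) y))) (hG.comp h2)
  have e3 : ∫⁻ x : S n, F x = ∫⁻ y : II ℝ n → ℝ, F (WithLp.toLp 2 y) :=
    (PiLp.volume_preserving_ofLp (II ℝ n)).lintegral_comp
      (f := fun y : II ℝ n → ℝ => F (WithLp.toLp 2 y)) hG
  have e4 : ∫⁻ y : II ℝ n → ℝ, F (WithLp.toLp 2 (Matrix.toLin' (Matrix.diagonal (wt d)) y)) =
      ∫⁻ y, F (WithLp.toLp 2 y) ∂(Measure.map (Matrix.toLin' (Matrix.diagonal (wt d))) volume) :=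
    (lintegral_map hG h2).symm
  rw [e2, e3, e4, h1, lintegral_smul_measure, hw, smul_eq_mul, Matrix.det_diagonal]
  congr 2
  rw [abs_inv, abs_pow]

theorem lint_cj (g : Matrix (Fin n) (Fin n) ℝ) (hg : g.det ≠ 0) : Sc g := by
  obtain ⟨U, hU, V, hV, s, hs, -, rfl⟩ := svd g hg
  exact Sc_mul (Sc_mul (Sc_orth hU) (Sc_diag s hs)) (Sc_orth hV)

end Pool.Agent.Run7.h884.SS
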