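import Pool.Agent.Run7.h884.SS.SV
import Pool.Agent.Helper575.FKG

/-! The FKG inequality for bi-orthogonally invariant functions under the Gaussian measure. -/

set_option autoImplicit false

namespace Pool.Agent.Run7.h884.SS

open MeasureTheory Set Matrix ProbabilityTheory
open scoped ENNReal
open Pool.Agent.H888R2.KC
open Pool.Agent.H992R2 (gam)

variable {n : ℕ}

/-- the Gaussian density -/
noncomputable def gw (x : P n) : ℝ≥0∞ :=
  ENNReal.ofReal (((Real.sqrt (2 * Real.pi))⁻¹) ^ (n * n) * Real.exp (-(nsq x) / 2))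

theorem meas_gw : Measurable (gw : P n → ℝ≥0∞) := by
  refine ENNReal.measurable_ofReal.comp ?_
  exact ((Real.continuous_exp.comp ((cont_nsq.neg).div_const 2)).measurable.const_mul _)

theorem gam_eq : gam (Fin n × Fin n) = (volume : Measure (P n)).withDensity gw := by
  have h3 : (fun _ : Fin n × Fin n => gaussianReal 0 1) =
      fun _ : Fin n × Fin n => (volume : Measure ℝ).withDensity (gaussianPDF 0 1) := by
    funext _
    exact gaussianReal_of_var_ne_zero 0 one_ne_zero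
  have hsf : ∀ _ : Fin n × Fin n, SigmaFinite ((volume : Measure ℝ).withDensity
      (gaussianPDF 0 1)) := by
    intro _
    rw [← gaussianReal_of_var_ne_zero 0 one_ne_zero]
    infer_instance
  show (Measure.pi fun _ : Fin n × Fin n => gaussianReal 0 1) = _
  rw [h3, Pool.Agent.H992R2.pi_withDensity_real (fun _ : Fin n × Fin n => gaussianPDF 0 1)
    (fun _ => measurable_gaussianPDF 0 1) hsf]
  congr 1
  funext y
  have h2 : ∀ i, gaussianPDF 0 1 (y i) =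
      ENNReal.ofReal ((Real.sqrt (2 * Real.pi))⁻¹ * Real.exp (-(y i ^ 2) / 2)) := by
    intro i
    rw [gaussianPDF_def, gaussianPDFReal_def]
    simp
  simp_rw [h2]
  rw [← ENNReal.ofReal_prod_of_nonneg (fun i _ => by positivity)]
  unfold gw
  congr 1
  rw [Finset.prod_mul_distrib, Finset.prod_const, Finset.card_univ, ← Real.exp_sum]
  congr 2
  · rw [Fintype.card_prod, Fintype.card_fin]
  · rw [← Finset.sum_div, Finset.sum_neg_distrib]
    rfl

theorem gw_BI : BI (gw : P n → ℝ≥0∞) := by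
  intro U hU V hV x
  unfold gw
  rw [nsq_act hU hV]

theorem lint_gam (F : P n → ℝ≥0∞) (hF : Measurable F) :
    ∫⁻ x, F x ∂(gam (Fin n × Fin n)) = ∫⁻ x : P n, F x * gw x := by
  rw [gam_eq, lintegral_withDensity_eq_lintegral_mul _ meas_gw hF]
  refine lintegral_congr fun x => ?_
  rw [Pi.mul_apply, mul_comm]

theorem nsq_dd {l : Fin n → ℝ} (hl : ∀ i, 0 < l i) : nsq (dd l) = ∑ i, l i := by
  rw [nsq_tr]
  unfold dd
  rw [mt_un, Matrix.diagonal_transpose, Matrix.diagonal_mul_diagonal, Matrix.trace_diagonal]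
  exact Finset.sum_congr rfl fun i _ => Real.mul_self_sqrt (hl i).le

theorem pair1 {a b c d : ℝ} (h1 : a ≤ b) (h2 : c ≤ d) :
    (b - a) * (d - c) ≤ ((b ⊔ d) - (a ⊔ c)) * ((b ⊓ d) - (a ⊓ c)) := by
  rcases le_total a c with hac | hac <;> rcases le_total b d with hbd | hbd
  · rw [sup_eq_right.2 hac, sup_eq_right.2 hbd, inf_eq_left.2 hac, inf_eq_left.2 hbd, mul_comm]
  · rw [sup_eq_right.2 hac, sup_eq_left.2 hbd, inf_eq_left.2 hac, inf_eq_right.2 hbd]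
    nlinarith [mul_nonneg (sub_nonneg.2 hac) (sub_nonneg.2 hbd)]
  · rw [sup_eq_left.2 hac, sup_eq_right.2 hbd, inf_eq_right.2 hac, inf_eq_left.2 hbd]
    nlinarith [mul_nonneg (sub_nonneg.2 hac) (sub_nonneg.2 hbd)]
  · rw [sup_eq_left.2 hac, sup_eq_left.2 hbd, inf_eq_right.2 hac, inf_eq_right.2 hbd]

theorem sup_mem {l m : Fin n → ℝ} (hl : l ∈ Cp n) (hm : m ∈ Cp n) : l ⊔ m ∈ Cp n :=
  ⟨fun i j hij => max_lt_max (hl.1 hij) (hm.1 hij), fun i => lt_max_of_lt_left (hl.2 i)⟩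

theorem inf_mem {l m : Fin n → ℝ} (hl : l ∈ Cp n) (hm : m ∈ Cp n) : l ⊓ m ∈ Cp n :=
  ⟨fun i j hij => min_lt_min (hl.1 hij) (hm.1 hij), fun i => lt_min (hl.2 i) (hm.2 i)⟩

/-- the real weight -/
noncomputable def wr (l : Fin n → ℝ) : ℝ :=
  vdm l * ∏ i, ((Real.sqrt (l i))⁻¹ * Real.exp (-(l i) / 2))

theorem vdm_nonneg {l : Fin n → ℝ} (hl : l ∈ Cp n) : 0 ≤ vdm l :=
  Finset.prod_nonneg fun p _ => sub_nonneg.2 (hl.1 p.2).le

theorem wr_nonneg {l : Fin n → ℝ} (hl : l ∈ Cp n) : 0 ≤ wr l :=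
  mul_nonneg (vdm_nonneg hl) (Finset.prod_nonneg fun i _ => by positivity)

theorem wr_ineq {l m : Fin n → ℝ} (hl : l ∈ Cp n) (hm : m ∈ Cp n) :
    wr l * wr m ≤ wr (l ⊔ m) * wr (l ⊓ m) := by
  have h1 : vdm l * vdm m ≤ vdm (l ⊔ m) * vdm (l ⊓ m) := by
    unfold vdm
    rw [← Finset.prod_mul_distrib, ← Finset.prod_mul_distrib]
    refine Finset.prod_le_prod (fun p _ => mul_nonneg (sub_nonneg.2 (hl.1 p.2).le)
      (sub_nonneg.2 (hm.1 p.2).le)) fun p _ => ?_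
    exact pair1 (hl.1 p.2).le (hm.1 p.2).le
  have h2 := Pool.Agent.Helper575.FKG.prod_sup_inf
    (fun t => (Real.sqrt t)⁻¹ * Real.exp (-t / 2)) l m
  unfold wr
  calc _ = (vdm l * vdm m) * ((∏ i, ((Real.sqrt (l i))⁻¹ * Real.exp (-(l i) / 2))) *
        ∏ i, ((Real.sqrt (m i))⁻¹ * Real.exp (-(m i) / 2))) := by ring
    _ ≤ (vdm (l ⊔ m) * vdm (l ⊓ m)) * ((∏ i, ((Real.sqrt ((l ⊔ m) i))⁻¹ *
        Real.exp (-((l ⊔ m) i) / 2))) *
        ∏ i, ((Real.sqrt ((l ⊓ m) i))⁻¹ * Real.exp (-((l ⊓ m) i) / 2))) := by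
        rw [h2]
        refine mul_le_mul_of_nonneg_right h1 (mul_nonneg
          (Finset.prod_nonneg fun i _ => by positivity)
          (Finset.prod_nonneg fun i _ => by positivity))
    _ = _ := by ring

/-- the weight with the Gaussian factor -/
noncomputable def ww (l : Fin n → ℝ) : ℝ≥0∞ := gw (dd l) * w0 l

theorem meas_ww : Measurable (ww : (Fin n → ℝ) → ℝ≥0∞) :=
  (meas_gw.comp meas_dd).mul meas_w0

theorem ww_of_mem {l : Fin n → ℝ} (hl : l ∈ Cp n) :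
    ww l = ENNReal.ofReal (((Real.sqrt (2 * Real.pi))⁻¹) ^ (n * n) * wr l) := by
  unfold ww w0 gw
  rw [Set.indicator_of_mem hl, nsq_dd hl.2, ← ENNReal.ofReal_mul (by positivity)]
  congr 1
  unfold wr
  rw [Finset.prod_mul_distrib, ← Real.exp_sum]
  have : ∑ i, -(l i) / 2 = -(∑ i, l i) / 2 := by
    rw [← Finset.sum_div, Finset.sum_neg_distrib]
  rw [this]
  ring

theorem ww_of_not {l : Fin n → ℝ} (hl : l ∉ Cp n) : ww l = 0 := by
  unfold ww w0
  rw [Set.indicator_of_notMem hl, mul_zero]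

theorem ww_ineq {l m : Fin n → ℝ} (hl : l ∈ Cp n) (hm : m ∈ Cp n) :
    ww l * ww m ≤ ww (l ⊔ m) * ww (l ⊓ m) := by
  have hK : 0 ≤ ((Real.sqrt (2 * Real.pi))⁻¹) ^ (n * n) := by positivity
  rw [ww_of_mem hl, ww_of_mem hm, ww_of_mem (sup_mem hl hm), ww_of_mem (inf_mem hl hm),
    ← ENNReal.ofReal_mul (mul_nonneg hK (wr_nonneg hl)),
    ← ENNReal.ofReal_mul (mul_nonneg hK (wr_nonneg (sup_mem hl hm)))]
  apply ENNReal.ofReal_le_ofReal
  have := wr_ineq hl hm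
  calc _ = (((Real.sqrt (2 * Real.pi))⁻¹) ^ (n * n)) ^ 2 * (wr l * wr m) := by ring
    _ ≤ (((Real.sqrt (2 * Real.pi))⁻¹) ^ (n * n)) ^ 2 * (wr (l ⊔ m) * wr (l ⊓ m)) := by gcongr
    _ = _ := by ring

theorem fkg (A Ψ : P n → ℝ≥0∞) (hAm : Measurable A) (hΨm : Measurable Ψ) (hA : BI A) (hΨ : BI Ψ)
    (hA' : ∀ l m : Fin n → ℝ, (∀ i, 0 < l i) → l ≤ m → A (dd l) ≤ A (dd m))
    (hΨ' : ∀ l m : Fin n → ℝ, (∀ i, 0 < l i) → l ≤ m → Ψ (dd l) ≤ Ψ (dd m)) :
    (∫⁻ x, A x ∂(gam (Fin n × Fin n))) * (∫⁻ x, Ψ x ∂(gam (Fin n × Fin n))) ≤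
      ∫⁻ x, A x * Ψ x ∂(gam (Fin n × Fin n)) := by
  obtain ⟨c, hc0, hct, hc⟩ := sv (n := n)
  have hone : ∫⁻ _x : P n, (1 : ℝ≥0∞) ∂(gam (Fin n × Fin n)) = 1 := by simp
  have e1 : ∀ F : P n → ℝ≥0∞, Measurable F → BI F →
      ∫⁻ x, F x ∂(gam (Fin n × Fin n)) = c * ∫⁻ l : Fin n → ℝ, F (dd l) * ww l := by
    intro F hF hFB
    rw [lint_gam F hF, hc (fun x => F x * gw x) (hF.mul meas_gw)]
    · congr 1
      refine lintegral_congr fun l => ?_
      unfold ww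
      rw [mul_assoc]
    · intro U hU V hV x
      show F (act U V x) * gw (act U V x) = F x * gw x
      rw [hFB U hU V hV, gw_BI U hU V hV]
  have h1 := e1 A hAm hA
  have h2 := e1 Ψ hΨm hΨ
  have h3 := e1 (fun x => A x * Ψ x) (hAm.mul hΨm) (fun U hU V hV x => by
    show A (act U V x) * Ψ (act U V x) = _
    rw [hA U hU V hV, hΨ U hU V hV])
  have h4 := e1 (fun _ => 1) measurable_const (fun _ _ _ _ _ => rfl)
  have hff := Pool.Agent.Helper575.FF.ff n (fun l => A (dd l) * ww l) (fun l => Ψ (dd l) * ww l)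
    (fun l => A (dd l) * Ψ (dd l) * ww l) (fun l => (1 : ℝ≥0∞) * ww l)
    ((hAm.comp meas_dd).mul meas_ww) ((hΨm.comp meas_dd).mul meas_ww)
    (((hAm.comp meas_dd).mul (hΨm.comp meas_dd)).mul meas_ww) (measurable_const.mul meas_ww)
    (by
      intro l m
      show A (dd l) * ww l * (Ψ (dd m) * ww m) ≤
        A (dd (l ⊔ m)) * Ψ (dd (l ⊔ m)) * ww (l ⊔ m) * (1 * ww (l ⊓ m))
      by_cases hl : l ∈ Cp n
      · by_cases hm : m ∈ Cp n
        · calc A (dd l) * ww l * (Ψ (dd m) * ww m)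
              = (A (dd l) * Ψ (dd m)) * (ww l * ww m) := by ring
            _ ≤ (A (dd (l ⊔ m)) * Ψ (dd (l ⊔ m))) * (ww (l ⊔ m) * ww (l ⊓ m)) :=
                mul_le_mul' (mul_le_mul' (hA' l _ hl.2 le_sup_left) (hΨ' m _ hm.2 le_sup_right))
                  (ww_ineq hl hm)
            _ = _ := by ring
        · rw [ww_of_not hm]; simp
      · rw [ww_of_not hl]; simp)
  rw [hone] at h4
  calc _ = (c * c) * ((∫⁻ l : Fin n → ℝ, A (dd l) * ww l) *
        ∫⁻ l : Fin n → ℝ, Ψ (dd l) * ww l) := by rw [h1, h2]; ring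
    _ ≤ (c * c) * ((∫⁻ l : Fin n → ℝ, A (dd l) * Ψ (dd l) * ww l) *
        ∫⁻ l : Fin n → ℝ, (1 : ℝ≥0∞) * ww l) := mul_le_mul' le_rfl hff
    _ = (c * ∫⁻ l : Fin n → ℝ, A (dd l) * Ψ (dd l) * ww l) *
        (c * ∫⁻ l : Fin n → ℝ, (1 : ℝ≥0∞) * ww l) := by ring
    _ = _ := by rw [← h4, mul_one, ← h3]

end Pool.Agent.Run7.h884.SS
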