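import Pool.Agent.Run7.h884.SS.Cent

/-! The bound for the centred Gaussian matrix and for shifted ones. -/

set_option autoImplicit false

namespace Pool.Agent.Run7.h884.SS

open MeasureTheory Set Matrix ProbabilityTheory
open scoped ENNReal
open Pool.Agent.H992R2 (gam muM mp_curry)

variable {n N : ℕ}

/-- the truncated absolute value -/
noncomputable def tr (R : ℝ) : ℝ → ℝ≥0∞ := {g : ℝ | |g| ≤ R}.indicator fun g => ENNReal.ofReal |g|

theorem meas_tr (R : ℝ) : Measurable (tr R) :=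
  Measurable.indicator (by fun_prop) (measurableSet_le (by fun_prop) measurable_const)

theorem step {y R : ℝ} (hy : 0 < y) (hR : 0 < R) :
    gam (Fin (N + 1) × Fin (N + 1)) (Ev (N + 1) y) * ∫⁻ g, tr R g ∂(gaussianReal 0 1) ≤
      ENNReal.ofReal ((Real.sqrt (2 * Real.pi))⁻¹ * 2 * (y⁻¹ * Real.sqrt (N + 1 : ℕ))) := by
  set r : ℝ := y⁻¹ / R with hr
  have hy1 : 0 < y⁻¹ := inv_pos.2 hy
  have hr0 : 0 < r := by positivity
  set μ := gam (Fin (N + 1) × Fin (N + 1)) with hμ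
  have hJ := meas_jw (n := N + 1) r
  have hZ := meas_joint (n := N + 1) r
  have h1 := upper (N := N) hr0.le
  have h2 : ∫⁻ w, μ {x | 1 ≤ r ^ 2 * ∑ i, ((mt x)⁻¹.mulVec w) i ^ 2} ∂(gam (Fin (N + 1))) =
      ∫⁻ x, gam (Fin (N + 1)) {w | 1 ≤ r ^ 2 * ∑ i, ((mt x)⁻¹.mulVec w) i ^ 2} ∂μ := by
    have e1 := Measure.prod_apply (μ := μ) (ν := gam (Fin (N + 1))) hJ
    have e2 := Measure.prod_apply_symm (μ := μ) (ν := gam (Fin (N + 1))) hJ
    exact e2.symm.trans e1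
  have h3 : ∫⁻ x, gaussianReal 0 1 {g | ∃ v : Fin (N + 1) → ℝ, ∑ i, v i ^ 2 ≤ 1 ∧
      1 ≤ (r * g) ^ 2 * ∑ i, ((mt x)⁻¹.mulVec v) i ^ 2} ∂μ ≤
      ∫⁻ x, gam (Fin (N + 1)) {w | 1 ≤ r ^ 2 * ∑ i, ((mt x)⁻¹.mulVec w) i ^ 2} ∂μ := by
    refine lintegral_mono fun x => ?_
    by_cases hx : (mt x).det = 0
    · have : {g : ℝ | ∃ v : Fin (N + 1) → ℝ, ∑ i, v i ^ 2 ≤ 1 ∧
          1 ≤ (r * g) ^ 2 * ∑ i, ((mt x)⁻¹.mulVec v) i ^ 2} = ∅ := by
        ext g
        simp only [mem_ofPred_eq, mem_empty_iff_false, iff_false, not_exists, not_and, not_le]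
        intro v _
        rw [sum_inv, hx, _root_.inv_zero]
        norm_num
      show gaussianReal 0 1 {g : ℝ | ∃ v : Fin (N + 1) → ℝ, ∑ i, v i ^ 2 ≤ 1 ∧
          1 ≤ (r * g) ^ 2 * ∑ i, ((mt x)⁻¹.mulVec v) i ^ 2} ≤ _
      rw [this, measure_empty]
      exact zero_le
    · exact lower_pt x hx
  have h4 : ∫⁻ x, gaussianReal 0 1 {g | ∃ v : Fin (N + 1) → ℝ, ∑ i, v i ^ 2 ≤ 1 ∧
      1 ≤ (r * g) ^ 2 * ∑ i, ((mt x)⁻¹.mulVec v) i ^ 2} ∂μ =
      ∫⁻ g, μ {x | ∃ v : Fin (N + 1) → ℝ, ∑ i, v i ^ 2 ≤ 1 ∧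
      1 ≤ (r * g) ^ 2 * ∑ i, ((mt x)⁻¹.mulVec v) i ^ 2} ∂(gaussianReal 0 1) := by
    have e1 := Measure.prod_apply (μ := μ) (ν := gaussianReal 0 1) hZ
    have e2 := Measure.prod_apply_symm (μ := μ) (ν := gaussianReal 0 1) hZ
    exact e1.symm.trans e2
  have h5 : ∀ g : ℝ, ENNReal.ofReal R⁻¹ * (μ (Ev (N + 1) y) * tr R g) ≤
      μ {x | ∃ v : Fin (N + 1) → ℝ, ∑ i, v i ^ 2 ≤ 1 ∧
      1 ≤ (r * g) ^ 2 * ∑ i, ((mt x)⁻¹.mulVec v) i ^ 2} := by
    intro g
    unfold tr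
    by_cases hg : |g| ≤ R
    · have hg' : g ∈ {g : ℝ | |g| ≤ R} := hg
      rw [Set.indicator_of_mem hg']
      by_cases hg0 : g = 0
      · rw [hg0, abs_zero, ENNReal.ofReal_zero, mul_zero, mul_zero]
        exact zero_le
      · have hga : 0 < |g| := abs_pos.2 hg0
        have hs : 0 < r * |g| := by positivity
        have hst : r * |g| ≤ y⁻¹ := by
          rw [hr, div_mul_eq_mul_div, div_le_iff₀ hR]
          gcongr
        have h6 := star (N := N) hs hst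
        rw [inv_inv] at h6
        have h7 : {x : P (N + 1) | ∃ v : Fin (N + 1) → ℝ, ∑ i, v i ^ 2 ≤ 1 ∧
            1 ≤ (r * g) ^ 2 * ∑ i, ((mt x)⁻¹.mulVec v) i ^ 2} = Ev (N + 1) (r * |g|)⁻¹ := by
          ext x
          unfold Ev
          simp only [mem_ofPred_eq]
          have h8 : ∀ Q : ℝ, 1 ≤ (r * g) ^ 2 * Q ↔ ((r * |g|)⁻¹) ^ 2 ≤ Q := by
            intro Q
            have h9 : (r * g) ^ 2 = (r * |g|) ^ 2 := by
              rw [mul_pow, mul_pow, sq_abs]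
            rw [h9, inv_pow, inv_le_iff_one_le_mul₀ (by positivity), mul_comm]
          simp only [h8]
        rw [h7]
        refine le_trans (le_of_eq ?_) h6
        have h8 : r * |g| / y⁻¹ = R⁻¹ * |g| := by
          rw [hr]
          field_simp
        rw [h8, ENNReal.ofReal_mul (by positivity)]
        ring
    · have hg' : g ∉ {g : ℝ | |g| ≤ R} := hg
      rw [Set.indicator_of_notMem hg', mul_zero, mul_zero]
      exact zero_le
  have h6 : ENNReal.ofReal R⁻¹ * (μ (Ev (N + 1) y) * ∫⁻ g, tr R g ∂(gaussianReal 0 1)) ≤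
      ENNReal.ofReal R⁻¹ *
        ENNReal.ofReal ((Real.sqrt (2 * Real.pi))⁻¹ * 2 * (y⁻¹ * Real.sqrt (N + 1 : ℕ))) := by
    calc _ = ∫⁻ g, ENNReal.ofReal R⁻¹ * (μ (Ev (N + 1) y) * tr R g) ∂(gaussianReal 0 1) := by
          rw [lintegral_const_mul _ ((meas_tr R).const_mul _), lintegral_const_mul _ (meas_tr R)]
      _ ≤ _ := lintegral_mono h5
      _ ≤ ENNReal.ofReal ((Real.sqrt (2 * Real.pi))⁻¹ * 2 * (r * Real.sqrt (N + 1 : ℕ))) := by
          rw [← h4]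
          refine h3.trans ?_
          rw [← h2]
          exact h1
      _ = _ := by
          rw [← ENNReal.ofReal_mul (by positivity)]
          congr 1
          rw [hr]
          field_simp
  have hR1 : ENNReal.ofReal R⁻¹ ≠ 0 := by
    rw [ne_eq, ENNReal.ofReal_eq_zero, not_le]
    positivity
  exact (ENNReal.mul_le_mul_iff_right hR1 ENNReal.ofReal_ne_top).1 h6

theorem sup_tr (g : ℝ) : ⨆ k : ℕ, tr ((k : ℝ) + 1) g = ENNReal.ofReal |g| := by
  apply le_antisymm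
  · refine iSup_le fun k => ?_
    exact Set.indicator_le_self _ _ _
  · obtain ⟨k, hk⟩ := exists_nat_ge |g|
    refine le_trans (le_of_eq ?_) (le_iSup _ k)
    have : g ∈ {g : ℝ | |g| ≤ (k : ℝ) + 1} := by
      show |g| ≤ (k : ℝ) + 1
      linarith
    unfold tr
    rw [Set.indicator_of_mem this]

theorem mono_tr : Monotone fun (k : ℕ) => tr ((k : ℝ) + 1) := by
  intro k m hkm g
  have : (k : ℝ) ≤ m := by exact_mod_cast hkm
  unfold tr
  refine Set.indicator_le_indicator_of_subset ?_ (fun _ => zero_le) g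
  intro h hh
  have : |h| ≤ (k : ℝ) + 1 := hh
  show |h| ≤ (m : ℝ) + 1
  linarith

theorem centred {y : ℝ} (hy : 0 < y) :
    gam (Fin (N + 1) × Fin (N + 1)) (Ev (N + 1) y) ≤
      ENNReal.ofReal (Real.sqrt (N + 1 : ℕ) / y) := by
  have hc : 0 < (Real.sqrt (2 * Real.pi))⁻¹ * 2 := by
    have : 0 < Real.sqrt (2 * Real.pi) := Real.sqrt_pos.2 (by positivity)
    positivity
  have h1 : gam (Fin (N + 1) × Fin (N + 1)) (Ev (N + 1) y) *
      ∫⁻ g, ENNReal.ofReal |g| ∂(gaussianReal 0 1) ≤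
      ENNReal.ofReal ((Real.sqrt (2 * Real.pi))⁻¹ * 2 * (y⁻¹ * Real.sqrt (N + 1 : ℕ))) := by
    have e : ∫⁻ g, ENNReal.ofReal |g| ∂(gaussianReal 0 1) =
        ⨆ k : ℕ, ∫⁻ g, tr ((k : ℝ) + 1) g ∂(gaussianReal 0 1) := by
      rw [← lintegral_iSup (fun k => meas_tr _) mono_tr]
      refine lintegral_congr fun g => ?_
      rw [sup_tr]
    rw [e, ENNReal.mul_iSup]
    refine iSup_le fun k => ?_
    exact step hy (by positivity)
  have h2 : gam (Fin (N + 1) × Fin (N + 1)) (Ev (N + 1) y) *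
      ENNReal.ofReal ((Real.sqrt (2 * Real.pi))⁻¹ * 2) ≤
      ENNReal.ofReal (Real.sqrt (N + 1 : ℕ) / y) *
        ENNReal.ofReal ((Real.sqrt (2 * Real.pi))⁻¹ * 2) := by
    refine (mul_le_mul' le_rfl absg).trans (h1.trans (le_of_eq ?_))
    rw [← ENNReal.ofReal_mul (by positivity)]
    congr 1
    field_simp
  have hc1 : ENNReal.ofReal ((Real.sqrt (2 * Real.pi))⁻¹ * 2) ≠ 0 := by
    rw [ne_eq, ENNReal.ofReal_eq_zero, not_le]
    exact hc
  exact (ENNReal.mul_le_mul_iff_left hc1 ENNReal.ofReal_ne_top).1 h2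

theorem final (n : ℕ) (Abar : Matrix (Fin n) (Fin n) ℝ) (σ x : ℝ) (hσ : 0 < σ) (hx : 0 < x) :
    (Measure.pi (fun _ : Fin n => Measure.pi (fun _ : Fin n => gaussianReal 0 1)))
      {G : Fin n → Fin n → ℝ |
        ∃ v : Fin n → ℝ, (∑ i, v i ^ 2 ≤ 1) ∧
          x ^ 2 ≤ ∑ i, (Matrix.mulVec (Abar + σ • Matrix.of G)⁻¹ v) i ^ 2}
      ≤ ENNReal.ofReal (Real.sqrt n / (x * σ)) := by
  have hy : 0 < x * σ := by positivity
  set B : P n := un (σ⁻¹ • Abar) with hB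
  have hm : MeasurableSet {z : P n | z + B ∈ Ev n (x * σ)} :=
    (measurable_add_const B) (meas_Ev hy)
  have h1 : {G : Fin n → Fin n → ℝ |
        ∃ v : Fin n → ℝ, (∑ i, v i ^ 2 ≤ 1) ∧
          x ^ 2 ≤ ∑ i, (Matrix.mulVec (Abar + σ • Matrix.of G)⁻¹ v) i ^ 2} =
      (MeasurableEquiv.curry (Fin n) (Fin n) ℝ).symm ⁻¹' {z : P n | z + B ∈ Ev n (x * σ)} := by
    ext G
    have e1 : mt ((MeasurableEquiv.curry (Fin n) (Fin n) ℝ).symm G + B) =
        σ⁻¹ • (Abar + σ • Matrix.of G) := by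
      rw [smul_add, smul_smul, inv_mul_cancel₀ hσ.ne', one_smul, add_comm]
      rfl
    have e2 : (σ⁻¹ • (Abar + σ • Matrix.of G))⁻¹ = σ • (Abar + σ • Matrix.of G)⁻¹ := by
      by_cases hd : (Abar + σ • Matrix.of G).det = 0
      · have hd2 : (σ⁻¹ • (Abar + σ • Matrix.of G)).det = 0 := by
          rw [Matrix.det_smul, hd, mul_zero]
        rw [Matrix.nonsing_inv_apply_not_isUnit _ (by rw [hd2]; simp),
          Matrix.nonsing_inv_apply_not_isUnit _ (by rw [hd]; simp), smul_zero]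
      · apply Matrix.inv_eq_left_inv
        rw [Matrix.smul_mul, Matrix.mul_smul, smul_smul, mul_inv_cancel₀ hσ.ne', one_smul,
          Matrix.nonsing_inv_mul _ (isUnit_iff_ne_zero.2 hd)]
    simp only [mem_ofPred_eq, mem_preimage, Ev]
    rw [e1, e2]
    refine exists_congr fun v => and_congr_right fun _ => ?_
    have e3 : ∑ i, ((σ • (Abar + σ • Matrix.of G)⁻¹).mulVec v) i ^ 2 =
        σ ^ 2 * ∑ i, (Matrix.mulVec (Abar + σ • Matrix.of G)⁻¹ v) i ^ 2 := by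
      rw [Finset.mul_sum]
      refine Finset.sum_congr rfl fun i _ => ?_
      rw [Matrix.smul_mulVec, Pi.smul_apply, smul_eq_mul, mul_pow]
    rw [e3, mul_pow, mul_comm (x ^ 2)]
    exact (mul_le_mul_iff_right₀ (by positivity)).symm
  have h2 : (Measure.pi (fun _ : Fin n => Measure.pi (fun _ : Fin n => gaussianReal 0 1)))
      {G : Fin n → Fin n → ℝ |
        ∃ v : Fin n → ℝ, (∑ i, v i ^ 2 ≤ 1) ∧
          x ^ 2 ≤ ∑ i, (Matrix.mulVec (Abar + σ • Matrix.of G)⁻¹ v) i ^ 2} =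
      gam (Fin n × Fin n) {z : P n | z + B ∈ Ev n (x * σ)} := by
    rw [h1]
    exact (mp_curry n n).measure_preimage hm.nullMeasurableSet
  rw [h2]
  refine (shift hy B).trans ?_
  rcases n with _ | N
  · have : Ev 0 (x * σ) = ∅ := by
      ext z
      simp only [Ev, mem_ofPred_eq, mem_empty_iff_false, iff_false, not_exists, not_and, not_le]
      intro v _
      simp only [Finset.univ_eq_empty, Finset.sum_empty]
      positivity
    rw [this, measure_empty]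
    exact zero_le
  · exact centred hy

end Pool.Agent.Run7.h884.SS
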