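import Pool.Agent.Run7.h884.SS.FKG

/-! The average of exponentials over two orthogonal groups and the comparison with the centred
Gaussian measure. -/

set_option autoImplicit false

namespace Pool.Agent.Run7.h884.SS

open MeasureTheory Set Matrix ProbabilityTheory
open scoped ENNReal
open Pool.Agent.H888R2.KC
open Pool.Agent.H888R2.KC.W7x (UG compactU)
open Pool.Agent.H992R2 (gam)

variable {n : ℕ}

local instance instMS : MeasurableSpace (UG ℝ n) := borel _
local instance instBS : BorelSpace (UG ℝ n) := ⟨rfl⟩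
local instance instSC : SecondCountableTopology (UG ℝ n) := by
  have : SecondCountableTopology (Matrix (Fin n) (Fin n) ℝ) :=
    inferInstanceAs (SecondCountableTopology (Fin n → Fin n → ℝ))
  exact TopologicalSpace.Subtype.secondCountableTopology _
local instance instCS : CompactSpace (UG ℝ n) := compactU ℝ n

/-- the scalar product -/
def dotp (x B : P n) : ℝ := ∑ p, x p * B p

theorem dotp_tr (x B : P n) : dotp x B = ((mt x)ᵀ * mt B).trace := by
  simp only [dotp, Matrix.trace, Matrix.diag_apply, Matrix.mul_apply, Matrix.transpose_apply, mt,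
    Matrix.of_apply]
  rw [Fintype.sum_prod_type, Finset.sum_comm]

/-- two copies of the orthogonal group -/
abbrev GG (n : ℕ) : Type := UG ℝ n × UG ℝ n

/-- Haar measure -/
noncomputable def hm (n : ℕ) : Measure (GG n) := Measure.haar

instance : (hm n).IsHaarMeasure := by unfold hm; infer_instance

instance : IsFiniteMeasure (hm n) := by infer_instance

/-- the exponential along the action -/
noncomputable def ee (B x : P n) (z : GG n) : ℝ :=
  Real.exp (dotp (act ((z.1 : Matrix (Fin n) (Fin n) ℝ)ᵀ) (z.2 : Matrix (Fin n) (Fin n) ℝ) x) B)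

theorem cont_ee (B : P n) : Continuous fun w : P n × GG n => ee B w.1 w.2 := by
  unfold ee
  refine Real.continuous_exp.comp ?_
  simp_rw [dotp_tr, mt_act]
  refine Continuous.matrix_trace (Continuous.matrix_mul (Continuous.matrix_transpose ?_)
    continuous_const)
  have c1 : Continuous fun w : P n × GG n => (w.2.1 : Matrix (Fin n) (Fin n) ℝ)ᵀ :=
    (continuous_subtype_val.comp (continuous_fst.comp continuous_snd)).matrix_transpose
  have c2 : Continuous fun w : P n × GG n => (w.2.2 : Matrix (Fin n) (Fin n) ℝ) :=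
    continuous_subtype_val.comp (continuous_snd.comp continuous_snd)
  exact (c1.matrix_mul (cont_mt.comp continuous_fst)).matrix_mul c2

/-- the average -/
noncomputable def Psi (B x : P n) : ℝ≥0∞ := ∫⁻ z, ENNReal.ofReal (ee B x z) ∂(hm n)

theorem meas_Psi (B : P n) : Measurable (Psi B) := by
  have h : Measurable fun w : P n × GG n => ENNReal.ofReal (ee B w.1 w.2) :=
    ENNReal.measurable_ofReal.comp (cont_ee B).measurable
  exact h.lintegral_prod_right'

theorem Psi_BI (B : P n) : BI (Psi B) := by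
  intro W hW Z hZ x
  have h := lintegral_mul_left_eq_self (μ := hm n) (fun z => ENNReal.ofReal (ee B x z))
    ((⟨Wᵀ, uTmem hW⟩, ⟨Z, hZ⟩) : GG n)
  unfold Psi
  rw [← h]
  refine lintegral_congr fun z => ?_
  congr 1
  unfold ee
  rw [act_act]
  congr 3
  show _ = (Wᵀ * (z.1 : Matrix (Fin n) (Fin n) ℝ))ᵀ
  rw [Matrix.transpose_mul, Matrix.transpose_transpose]

/-- the coefficients -/
def Xc (B : P n) (z : GG n) (i : Fin n) : ℝ :=
  ((z.1 : Matrix (Fin n) (Fin n) ℝ) * mt B * (z.2 : Matrix (Fin n) (Fin n) ℝ)ᵀ) i i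

theorem ee_diag (B : P n) (s : Fin n → ℝ) (z : GG n) :
    ee B (un (Matrix.diagonal s)) z = ∏ i, Real.exp (s i * Xc B z i) := by
  rw [← Real.exp_sum]
  unfold ee
  congr 1
  rw [dotp_tr, mt_act, mt_un, Matrix.transpose_mul, Matrix.transpose_mul,
    Matrix.transpose_transpose, Matrix.diagonal_transpose]
  have : ((z.2 : Matrix (Fin n) (Fin n) ℝ)ᵀ * (Matrix.diagonal s *
      (z.1 : Matrix (Fin n) (Fin n) ℝ)) * mt B).trace =
      (Matrix.diagonal s * ((z.1 : Matrix (Fin n) (Fin n) ℝ) * mt B *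
        (z.2 : Matrix (Fin n) (Fin n) ℝ)ᵀ)).trace := by
    rw [Matrix.mul_assoc, Matrix.trace_mul_comm]
    simp only [Matrix.mul_assoc]
  rw [this]
  simp only [Matrix.trace, Matrix.diag_apply, Matrix.diagonal_mul]
  rfl

/-- signs -/
def sg (b : Bool) : ℝ := if b then 1 else -1

theorem sg_sq (b : Bool) : sg b * sg b = 1 := by cases b <;> simp [sg]

theorem Psi_sign (B : P n) (s : Fin n → ℝ) (e : Fin n → Bool) :
    Psi B (un (Matrix.diagonal fun i => sg (e i) * s i)) = Psi B (un (Matrix.diagonal s)) := by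
  have hU : (Matrix.diagonal fun i => sg (e i)) ∈ Matrix.unitaryGroup (Fin n) ℝ := by
    apply uMem
    rw [Matrix.diagonal_transpose, Matrix.diagonal_mul_diagonal]
    simp only [sg_sq, Matrix.diagonal_one]
  have h := Psi_BI B _ hU 1 (one_mem _) (un (Matrix.diagonal s))
  rw [← h]
  congr 1
  unfold act
  rw [mt_un, Matrix.mul_one, Matrix.diagonal_mul_diagonal]

theorem meas_ee (B x : P n) : Measurable fun z : GG n => ENNReal.ofReal (ee B x z) := by
  refine ENNReal.measurable_ofReal.comp ?_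
  exact ((cont_ee B).comp (continuous_const.prodMk continuous_id)).measurable

theorem Psi_cosh (B : P n) (s : Fin n → ℝ) :
    (2 : ℝ≥0∞) ^ n * Psi B (un (Matrix.diagonal s)) =
      ∫⁻ z, ENNReal.ofReal (∏ i, (Real.exp (s i * Xc B z i) + Real.exp (-(s i * Xc B z i))))
        ∂(hm n) := by
  classical
  have h1 : (2 : ℝ≥0∞) ^ n * Psi B (un (Matrix.diagonal s)) =
      ∑ e : Fin n → Bool, Psi B (un (Matrix.diagonal fun i => sg (e i) * s i)) := by
    simp only [Psi_sign]
    rw [Finset.sum_const, Finset.card_univ, Fintype.card_fun, Fintype.card_bool, Fintype.card_fin,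
      nsmul_eq_mul]
    push_cast
    rfl
  rw [h1]
  unfold Psi
  rw [← lintegral_finsetSum _ (fun e _ => meas_ee B _)]
  refine lintegral_congr fun z => ?_
  have hnn : ∀ e ∈ (Finset.univ : Finset (Fin n → Bool)),
      0 ≤ ee B (un (Matrix.diagonal fun i => sg (e i) * s i)) z := fun e _ => (Real.exp_pos _).le
  rw [← ENNReal.ofReal_sum_of_nonneg hnn]
  congr 1
  have h2 := Finset.prod_univ_sum (fun _ : Fin n => (Finset.univ : Finset Bool))
    (fun i b => Real.exp (sg b * s i * Xc B z i))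
  rw [Fintype.piFinset_univ] at h2
  have h3 : ∀ i, ∑ b : Bool, Real.exp (sg b * s i * Xc B z i) =
      Real.exp (s i * Xc B z i) + Real.exp (-(s i * Xc B z i)) := by
    intro i
    rw [Fintype.sum_bool]
    simp [sg]
  simp only [h3] at h2
  rw [h2]
  refine Finset.sum_congr rfl fun e _ => ?_
  rw [ee_diag]

theorem Psi_mono (B : P n) (s t : Fin n → ℝ) (hs : ∀ i, 0 ≤ s i) (hst : s ≤ t) :
    Psi B (un (Matrix.diagonal s)) ≤ Psi B (un (Matrix.diagonal t)) := by
  have h2 : (2 : ℝ≥0∞) ^ n ≠ 0 := by positivity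
  have h2t : (2 : ℝ≥0∞) ^ n ≠ ⊤ := by finiteness
  rw [← ENNReal.mul_le_mul_iff_right h2 h2t, Psi_cosh, Psi_cosh]
  refine lintegral_mono fun z => ?_
  apply ENNReal.ofReal_le_ofReal
  refine Finset.prod_le_prod (fun i _ => by positivity) fun i _ => ?_
  have h3 : Real.cosh (s i * Xc B z i) ≤ Real.cosh (t i * Xc B z i) := by
    rw [Real.cosh_le_cosh, abs_mul, abs_mul, abs_of_nonneg (hs i),
      abs_of_nonneg ((hs i).trans (hst i))]
    exact mul_le_mul_of_nonneg_right (hst i) (abs_nonneg _)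
  rw [Real.cosh_eq, Real.cosh_eq] at h3
  linarith

theorem gam_inv {U V : Matrix (Fin n) (Fin n) ℝ} (hU : U ∈ Matrix.unitaryGroup (Fin n) ℝ)
    (hV : V ∈ Matrix.unitaryGroup (Fin n) ℝ) (F : P n → ℝ≥0∞) (hF : Measurable F) :
    ∫⁻ x, F (act U V x) ∂(gam (Fin n × Fin n)) = ∫⁻ x, F x ∂(gam (Fin n × Fin n)) := by
  rw [lint_gam F hF, lint_gam (fun x => F (act U V x)) (hF.comp (meas_act U V))]
  have h := lint_act U V (uDet0 hU) (uDet0 hV) (fun x => F x * gw x) (hF.mul meas_gw)
  rw [uDet hU, uDet hV] at h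
  simp only [one_pow, mul_one, inv_one, ENNReal.ofReal_one, one_mul] at h
  rw [← h]
  refine lintegral_congr fun x => ?_
  rw [gw_BI U hU V hV]

theorem avg (B : P n) (A : P n → ℝ≥0∞) (hAm : Measurable A) (hA : BI A) :
    ∫⁻ x, A x * Psi B x ∂(gam (Fin n × Fin n)) =
      (hm n univ) * ∫⁻ x, A x * ENNReal.ofReal (Real.exp (dotp x B)) ∂(gam (Fin n × Fin n)) := by
  have h1 : ∀ x, A x * Psi B x = ∫⁻ z, A x * ENNReal.ofReal (ee B x z) ∂(hm n) := by
    intro x
    unfold Psi
    rw [lintegral_const_mul _ (meas_ee B x)]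
  simp only [h1]
  have hjm : Measurable fun w : P n × GG n => A w.1 * ENNReal.ofReal (ee B w.1 w.2) :=
    (hAm.comp measurable_fst).mul (ENNReal.measurable_ofReal.comp (cont_ee B).measurable)
  rw [lintegral_lintegral_swap hjm.aemeasurable]
  have hcd : Continuous fun x : P n => Real.exp (dotp x B) := by
    unfold dotp; fun_prop
  have h2 : ∀ z : GG n, ∫⁻ x, A x * ENNReal.ofReal (ee B x z) ∂(gam (Fin n × Fin n)) =
      ∫⁻ x, A x * ENNReal.ofReal (Real.exp (dotp x B)) ∂(gam (Fin n × Fin n)) := by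
    intro z
    have h3 := gam_inv (uTmem z.1.2) z.2.2 (fun x => A x * ENNReal.ofReal (Real.exp (dotp x B)))
      (hAm.mul (ENNReal.measurable_ofReal.comp hcd.measurable))
    rw [← h3]
    refine lintegral_congr fun x => ?_
    show A x * ENNReal.ofReal (ee B x z) = _
    rw [hA _ (uTmem z.1.2) _ z.2.2]
    rfl
  simp only [h2]
  rw [lintegral_const, mul_comm]

theorem hm_ne : hm n univ ≠ 0 := (isOpen_univ.measure_pos (hm n) univ_nonempty).ne'

theorem hm_top : hm n univ ≠ ⊤ := measure_ne_top _ _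

/-- the comparison inequality -/
theorem compare (B : P n) (A : P n → ℝ≥0∞) (hAm : Measurable A) (hA : BI A)
    (hA' : ∀ l m : Fin n → ℝ, (∀ i, 0 < l i) → l ≤ m → A (dd l) ≤ A (dd m)) :
    (∫⁻ x, A x ∂(gam (Fin n × Fin n))) *
        (∫⁻ x, ENNReal.ofReal (Real.exp (dotp x B)) ∂(gam (Fin n × Fin n))) ≤
      ∫⁻ x, A x * ENNReal.ofReal (Real.exp (dotp x B)) ∂(gam (Fin n × Fin n)) := by
  have h1 := fkg A (Psi B) hAm (meas_Psi B) hA (Psi_BI B) hA' (fun l m _ hlm =>
    Psi_mono B _ _ (fun i => Real.sqrt_nonneg _) (fun i => Real.sqrt_le_sqrt (hlm i)))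
  have h2 := avg B A hAm hA
  have h3 := avg B (fun _ => 1) measurable_const (fun _ _ _ _ _ => rfl)
  simp only [one_mul] at h3
  rw [h2, h3] at h1
  have h4 : (hm n univ) * ((∫⁻ x, A x ∂(gam (Fin n × Fin n))) *
        (∫⁻ x, ENNReal.ofReal (Real.exp (dotp x B)) ∂(gam (Fin n × Fin n)))) ≤
      (hm n univ) * ∫⁻ x, A x * ENNReal.ofReal (Real.exp (dotp x B)) ∂(gam (Fin n × Fin n)) := by
    refine le_trans (le_of_eq ?_) h1
    ring
  exact (ENNReal.mul_le_mul_iff_right hm_ne hm_top).1 h4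

end Pool.Agent.Run7.h884.SS
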