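import Pool.Agent.Run7.h884.SS.Wish2

/-! Integration of bi-orthogonally invariant functions of matrices. -/

set_option autoImplicit false

namespace Pool.Agent.Run7.h884.SS

open MeasureTheory Set Matrix
open scoped ENNReal
open Pool.Agent.H888R2.KC

variable {n : ℕ}

/-- bi-orthogonal invariance -/
def BI (H : P n → ℝ≥0∞) : Prop :=
  ∀ U ∈ Matrix.unitaryGroup (Fin n) ℝ, ∀ V ∈ Matrix.unitaryGroup (Fin n) ℝ,
    ∀ x, H (act U V x) = H x

/-- the diagonal matrix with the given squares of singular values -/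
noncomputable def dd (l : Fin n → ℝ) : P n := un (Matrix.diagonal fun i => Real.sqrt (l i))

/-- the positive open chamber -/
def Cp (n : ℕ) : Set (Fin n → ℝ) := {l | StrictMono l ∧ ∀ i, 0 < l i}

/-- the product of the differences -/
def vdm (l : Fin n → ℝ) : ℝ := ∏ p : {p : Fin n × Fin n // p.1 < p.2}, (l p.1.2 - l p.1.1)

/-- the weight of the chamber -/
noncomputable def w0 (l : Fin n → ℝ) : ℝ≥0∞ :=
  (Cp n).indicator (fun l => ENNReal.ofReal (vdm l * ∏ i, (Real.sqrt (l i))⁻¹)) l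

theorem meas_Cp : MeasurableSet (Cp n) := by
  have : Cp n = (⋂ i : Fin n, ⋂ j : Fin n, ⋂ (_ : i < j), {l : Fin n → ℝ | l i < l j}) ∩
      ⋂ i : Fin n, {l | 0 < l i} := by
    ext l
    simp only [Cp, mem_inter_iff, mem_iInter]
    constructor
    · rintro ⟨h1, h2⟩
      exact ⟨fun i j hij => h1 hij, h2⟩
    · rintro ⟨h1, h2⟩
      exact ⟨fun i j hij => h1 i j hij, h2⟩
  rw [this]
  refine MeasurableSet.inter (MeasurableSet.iInter fun i => MeasurableSet.iInter fun j =>
    MeasurableSet.iInter fun _ => measurableSet_lt (measurable_pi_apply i) (measurable_pi_apply j))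
    (MeasurableSet.iInter fun i => measurableSet_lt measurable_const (measurable_pi_apply i))

theorem meas_vdm : Measurable (vdm : (Fin n → ℝ) → ℝ) := by
  have : Continuous (vdm : (Fin n → ℝ) → ℝ) := by
    unfold vdm
    exact continuous_finsetProd _ fun p _ => by fun_prop
  exact this.measurable

theorem meas_w0 : Measurable (w0 : (Fin n → ℝ) → ℝ≥0∞) := by
  refine Measurable.indicator ?_ meas_Cp
  refine ENNReal.measurable_ofReal.comp (meas_vdm.mul ?_)
  refine Finset.measurable_fun_prod _ fun i _ => ?_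
  exact ((Real.continuous_sqrt.measurable.comp (measurable_pi_apply i))).inv

theorem meas_dd : Measurable (dd : (Fin n → ℝ) → P n) := by
  have : Continuous (dd : (Fin n → ℝ) → P n) := by
    refine cont_un.comp ?_
    refine Continuous.matrix_diagonal ?_
    exact continuous_pi fun i => Real.continuous_sqrt.comp (continuous_apply i)
  exact this.measurable

theorem q_eq {a g : P n} (hg : (mt g).det ≠ 0) (h : q g = q a) {H : P n → ℝ≥0∞} (hH : BI H) :
    H a = H g := by
  have h1 : (mt g)ᵀ * mt g = (mt a)ᵀ * mt a := by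
    rw [← Ph_q, ← Ph_q, h]
  have hg1 : mt g * (mt g)⁻¹ = 1 := Matrix.mul_nonsing_inv _ (isUnit_iff_ne_zero.2 hg)
  have hg2 : (mt g)⁻¹ * mt g = 1 := Matrix.nonsing_inv_mul _ (isUnit_iff_ne_zero.2 hg)
  have hg3 : ((mt g)⁻¹)ᵀ * (mt g)ᵀ = 1 := by
    rw [← Matrix.transpose_mul, hg1, Matrix.transpose_one]
  have hU : mt a * (mt g)⁻¹ ∈ Matrix.unitaryGroup (Fin n) ℝ := by
    apply uMem
    rw [Matrix.transpose_mul]
    calc ((mt g)⁻¹)ᵀ * (mt a)ᵀ * (mt a * (mt g)⁻¹)
        = ((mt g)⁻¹)ᵀ * ((mt a)ᵀ * mt a) * (mt g)⁻¹ := by simp only [Matrix.mul_assoc]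
      _ = (((mt g)⁻¹)ᵀ * (mt g)ᵀ) * (mt g * (mt g)⁻¹) := by
        rw [← h1]; simp only [Matrix.mul_assoc]
      _ = 1 := by rw [hg3, hg1, Matrix.one_mul]
  have h2 := hH _ hU 1 (one_mem _) g
  have h3 : act (mt a * (mt g)⁻¹) 1 g = a := by
    unfold act
    rw [Matrix.mul_one, Matrix.mul_assoc, hg2, Matrix.mul_one, un_mt]
  rw [h3] at h2
  exact h2

theorem exists_F (H : P n → ℝ≥0∞) (hm : Measurable H) (hH : BI H) :
    ∃ F : S n → ℝ≥0∞, Measurable F ∧ ∀ g : P n, (mt g).det ≠ 0 → F (q g) = H g := by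
  classical
  have hX : MeasurableSet {g : P n | (mt g).det ≠ 0} :=
    (isOpen_ne_fun cont_mt.matrix_det continuous_const).measurableSet
  have hSB : StandardBorelSpace {g : P n | (mt g).det ≠ 0} := hX.standardBorel
  let qq : {g : P n | (mt g).det ≠ 0} → Pos n := fun g => ⟨q g.1, q_mem_Pos g.2⟩
  have hqm : Measurable qq := (cont_q.measurable.comp measurable_subtype_coe).subtype_mk
  have hqs : Function.Surjective qq := by
    rintro ⟨x, hx⟩
    obtain ⟨g, hg, rfl⟩ := Pos_q hx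
    exact ⟨⟨g, hg⟩, rfl⟩
  let f : Pos n → ℝ≥0∞ := fun y => H (Classical.choose (Pos_q y.2))
  have hf : ∀ g : {g : P n | (mt g).det ≠ 0}, f (qq g) = H g.1 := by
    intro g
    have hs := Classical.choose_spec (Pos_q (qq g).2)
    exact q_eq g.2 hs.2 hH
  have hfm : Measurable f := by
    rw [← hqm.measurable_comp_iff_of_surjective hqs]
    have : f ∘ qq = fun g => H g.1 := funext hf
    rw [this]
    exact hm.comp measurable_subtype_coe
  refine ⟨fun x => if h : x ∈ Pos n then f ⟨x, h⟩ else 0, ?_, ?_⟩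
  · exact Measurable.dite (s := Pos n) hfm (g := fun _ => 0) measurable_const meas_Pos
  · intro g hg
    show (if h : q g ∈ Pos n then f ⟨q g, h⟩ else 0) = H g
    rw [dif_pos (q_mem_Pos hg)]
    exact hf ⟨g, hg⟩

theorem q_dd {l : Fin n → ℝ} (hl : ∀ i, 0 < l i) :
    q (dd l) = dg (Ph n) (WithLp.toLp 2 l) := by
  apply W7x.Phi_inj (frm n)
  rw [Ph_q, Phi_dg (frm n)]
  unfold dd
  rw [mt_un, Matrix.diagonal_transpose, Matrix.diagonal_mul_diagonal]
  unfold dm
  congr 1
  funext i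
  exact Real.mul_self_sqrt (hl i).le

theorem det_dd {l : Fin n → ℝ} : (mt (dd l)).det = ∏ i, Real.sqrt (l i) := by
  unfold dd
  rw [mt_un, Matrix.det_diagonal]

theorem det_dd_ne {l : Fin n → ℝ} (hl : ∀ i, 0 < l i) : (mt (dd l)).det ≠ 0 := by
  rw [det_dd]
  exact Finset.prod_ne_zero_iff.2 fun i _ => (Real.sqrt_pos.2 (hl i)).ne'

theorem dg_Pos (l : EuclideanSpace ℝ (Fin n)) :
    dg (Ph n) l ∈ Pos n ↔ ∀ i, 0 < l i := by
  constructor
  · rintro ⟨h1, h2⟩ i
    have e : Ph n (dg (Ph n) l) = Matrix.diagonal fun i => l i := Phi_dg (frm n) l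
    rw [e, Matrix.det_diagonal] at h2
    have h3 := h1 (Pi.single i 1)
    rw [e] at h3
    have h4 : (0 : ℝ) ≤ l i := by simpa using h3
    have h5 : l i ≠ 0 := (Finset.prod_ne_zero_iff.1 h2) i (Finset.mem_univ i)
    exact lt_of_le_of_ne h4 h5.symm
  · intro h
    have := q_mem_Pos (det_dd_ne (l := l.ofLp) h)
    rwa [q_dd h] at this

theorem sv : ∃ c : ℝ≥0∞, c ≠ 0 ∧ c ≠ ⊤ ∧ ∀ H : P n → ℝ≥0∞, Measurable H → BI H →
    ∫⁻ x : P n, H x = c * ∫⁻ l : Fin n → ℝ, H (dd l) * w0 l := by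
  obtain ⟨c1, h10, h1t, hw⟩ := wish (n := n)
  obtain ⟨c2, h20, h2t, hweyl⟩ := weyl (frm n)
  refine ⟨c1 * c2, mul_ne_zero h10 h20, ENNReal.mul_ne_top h1t h2t, fun H hm hH => ?_⟩
  obtain ⟨F, hFm, hF⟩ := exists_F H hm hH
  have hs : Measurable fun x : S n => ENNReal.ofReal ((Real.sqrt (Ph n x).det)⁻¹) :=
    ENNReal.measurable_ofReal.comp ((Real.continuous_sqrt.comp cont_Ph.matrix_det).measurable.inv)
  have e1 : ∫⁻ x : P n, H x = ∫⁻ x : P n, F (q x) := by
    refine lintegral_congr_ae ?_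
    filter_upwards [det_null (n := n)] with g hg
    exact (hF g hg).symm
  have hF2m : Measurable ((Pos n).indicator fun x => F x *
      ENNReal.ofReal ((Real.sqrt (Ph n x).det)⁻¹)) := (hFm.mul hs).indicator meas_Pos
  have hinv : ∀ U ∈ Matrix.unitaryGroup (Fin n) ℝ, ∀ x, (Pos n).indicator (fun x => F x *
      ENNReal.ofReal ((Real.sqrt (Ph n x).det)⁻¹)) (cj (Ph n) U x) =
      (Pos n).indicator (fun x => F x * ENNReal.ofReal ((Real.sqrt (Ph n x).det)⁻¹)) x := by
    intro U hU x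
    by_cases hx : x ∈ Pos n
    · have hx' : cj (Ph n) U x ∈ Pos n := (cj_mem_Pos_iff (uDet0 hU) x).2 hx
      rw [Set.indicator_of_mem hx', Set.indicator_of_mem hx]
      congr 1
      · obtain ⟨g, hg, rfl⟩ := Pos_q hx
        have e : cj (Ph n) U (q g) = q (act 1 Uᵀ g) := by
          apply W7x.Phi_inj (frm n)
          rw [Phi_cj (frm n), Ph_q, Ph_q, mt_act, Matrix.conjTranspose_eq_transpose_of_trivial,
            Matrix.one_mul, Matrix.transpose_mul, Matrix.transpose_transpose]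
          simp only [Matrix.mul_assoc]
        rw [e, hF g hg, hF, hH 1 (one_mem _) Uᵀ (uTmem hU)]
        rw [mt_act, Matrix.one_mul, Matrix.det_mul]
        exact mul_ne_zero hg (uDet0 (uTmem hU))
      · congr 3
        rw [Phi_cj (frm n), Matrix.det_mul, Matrix.det_mul,
          Matrix.conjTranspose_eq_transpose_of_trivial, Matrix.det_transpose]
        have h3 : U.det * U.det = 1 := by
          rw [← abs_mul_abs_self, uDet hU, one_mul]
        calc U.det * (Ph n x).det * U.det = (U.det * U.det) * (Ph n x).det := by ring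
          _ = _ := by rw [h3, one_mul]
    · rw [Set.indicator_of_notMem (fun h => hx ((cj_mem_Pos_iff (uDet0 hU) x).1 h)),
        Set.indicator_of_notMem hx]
  have h2 := hweyl _ hF2m hinv
  rw [lintegral_indicator meas_Pos] at h2
  rw [e1, hw F hFm, h2, ← mul_assoc]
  congr 1
  rw [← lintegral_indicator W7x.Ch_open.measurableSet]
  have hK : Measurable fun l : Fin n → ℝ => H (dd l) * w0 l := (hm.comp meas_dd).mul meas_w0
  have h3 : ∫⁻ l : EuclideanSpace ℝ (Fin n), (fun l : Fin n → ℝ => H (dd l) * w0 l) (WithLp.ofLp l) =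
      ∫⁻ l : Fin n → ℝ, H (dd l) * w0 l :=
    (PiLp.volume_preserving_ofLp (Fin n)).lintegral_comp
      (f := fun l : Fin n → ℝ => H (dd l) * w0 l) hK
  rw [← h3]
  refine lintegral_congr fun l => ?_
  by_cases hl : l ∈ Ch n
  · rw [Set.indicator_of_mem hl]
    by_cases hp : ∀ i, 0 < l i
    · have hc : l.ofLp ∈ Cp n := ⟨hl, hp⟩
      show _ = H (dd l.ofLp) * w0 l.ofLp
      unfold w0
      rw [Set.indicator_of_mem ((dg_Pos l).2 hp), Set.indicator_of_mem hc]
      have e2 : F (dg (Ph n) l) = H (dd l.ofLp) := by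
        rw [← hF _ (det_dd_ne hp), q_dd hp]
      rw [e2, mul_assoc]
      congr 1
      rw [← ENNReal.ofReal_mul (by positivity)]
      congr 1
      have e3 : (Ph n (dg (Ph n) l)).det = ∏ i, l i := by
        have e : Ph n (dg (Ph n) l) = Matrix.diagonal fun i => l i := Phi_dg (frm n) l
        rw [e, Matrix.det_diagonal]
      rw [e3, Module.finrank_self, pow_one, mul_comm, Finset.prod_inv_distrib,
        Real.sqrt_prod _ (fun i _ => (hp i).le)]
      rfl
    · have hc : l.ofLp ∉ Cp n := fun h => hp h.2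
      show _ = H (dd l.ofLp) * w0 l.ofLp
      unfold w0
      rw [Set.indicator_of_notMem (fun h => hp ((dg_Pos l).1 h)), Set.indicator_of_notMem hc,
        zero_mul, mul_zero]
  · have hc : l.ofLp ∉ Cp n := fun h => hl h.1
    rw [Set.indicator_of_notMem hl]
    show _ = H (dd l.ofLp) * w0 l.ofLp
    unfold w0
    rw [Set.indicator_of_notMem hc, mul_zero]

end Pool.Agent.Run7.h884.SS
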