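import Pool.Agent.Run7.h884.SS.Psi

/-! The event and the comparison of shifted and centred Gaussian measures. -/

set_option autoImplicit false

namespace Pool.Agent.Run7.h884.SS

open MeasureTheory Set Matrix ProbabilityTheory
open scoped ENNReal
open Pool.Agent.H888R2.KC
open Pool.Agent.H992R2 (gam)

variable {n : ℕ}

/-- the event that the norm of the inverse is at least `y` -/
def Ev (n : ℕ) (y : ℝ) : Set (P n) :=
  {x | ∃ v : Fin n → ℝ, ∑ i, v i ^ 2 ≤ 1 ∧ y ^ 2 ≤ ∑ i, ((mt x)⁻¹.mulVec v) i ^ 2}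

theorem sum_inv {M : Matrix (Fin n) (Fin n) ℝ} (v : Fin n → ℝ) :
    ∑ i, (M⁻¹.mulVec v) i ^ 2 = (M.det⁻¹) ^ 2 * ∑ i, (M.adjugate.mulVec v) i ^ 2 := by
  rw [Matrix.inv_def, Ring.inverse_eq_inv', Matrix.smul_mulVec, Finset.mul_sum]
  refine Finset.sum_congr rfl fun i _ => ?_
  rw [Pi.smul_apply, smul_eq_mul, mul_pow]

theorem meas_Ev {y : ℝ} (hy : 0 < y) : MeasurableSet (Ev n y) := by
  have hK : IsCompact {v : Fin n → ℝ | ∑ i, v i ^ 2 ≤ 1} := by
    refine (isCompact_closedBall (0 : Fin n → ℝ) 1).of_isClosed_subset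
      (isClosed_le (by fun_prop) continuous_const) ?_
    intro v hv
    rw [mem_closedBall_zero_iff, pi_norm_le_iff_of_nonneg zero_le_one]
    intro i
    rw [Real.norm_eq_abs, ← sq_le_one_iff_abs_le_one]
    exact (Finset.single_le_sum (f := fun i => v i ^ 2) (fun i _ => sq_nonneg _)
      (Finset.mem_univ i)).trans hv
  have hKs : CompactSpace {v : Fin n → ℝ | ∑ i, v i ^ 2 ≤ 1} := isCompact_iff_compactSpace.1 hK
  have hC : IsClosed {w : P n × {v : Fin n → ℝ | ∑ i, v i ^ 2 ≤ 1} |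
      y ^ 2 * (mt w.1).det ^ 2 ≤ ∑ i, ((mt w.1).adjugate.mulVec w.2.1) i ^ 2} := by
    refine isClosed_le ?_ ?_
    · exact continuous_const.mul ((cont_mt.comp continuous_fst).matrix_det.pow 2)
    · refine continuous_finsetSum _ fun i _ => Continuous.pow ?_ 2
      have c1 : Continuous fun w : P n × {v : Fin n → ℝ | ∑ i, v i ^ 2 ≤ 1} =>
          (mt w.1).adjugate.mulVec w.2.1 :=
        ((cont_mt.comp continuous_fst).matrix_adjugate).matrix_mulVec
          (continuous_subtype_val.comp continuous_snd)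
      exact (continuous_apply i).comp c1
  have hI := isClosedMap_fst_of_compactSpace _ hC
  have hD : IsOpen {x : P n | (mt x).det ≠ 0} :=
    isOpen_ne_fun cont_mt.matrix_det continuous_const
  have : Ev n y = (Prod.fst '' {w : P n × {v : Fin n → ℝ | ∑ i, v i ^ 2 ≤ 1} |
      y ^ 2 * (mt w.1).det ^ 2 ≤ ∑ i, ((mt w.1).adjugate.mulVec w.2.1) i ^ 2}) ∩
      {x : P n | (mt x).det ≠ 0} := by
    ext x
    constructor
    · rintro ⟨v, hv1, hv2⟩
      have hd : (mt x).det ≠ 0 := by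
        intro h
        rw [sum_inv, h, _root_.inv_zero] at hv2
        have : 0 < y ^ 2 := by positivity
        simp at hv2
        exact hy.ne' hv2
      refine ⟨⟨(x, ⟨v, hv1⟩), ?_, rfl⟩, hd⟩
      rw [sum_inv] at hv2
      have h1 : 0 < (mt x).det ^ 2 := by positivity
      show y ^ 2 * (mt x).det ^ 2 ≤ ∑ i, ((mt x).adjugate.mulVec v) i ^ 2
      calc y ^ 2 * (mt x).det ^ 2 ≤ (((mt x).det⁻¹) ^ 2 *
            ∑ i, ((mt x).adjugate.mulVec v) i ^ 2) * (mt x).det ^ 2 := by gcongr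
        _ = _ := by field_simp
    · rintro ⟨⟨⟨x', ⟨v, hv1⟩⟩, hw, rfl⟩, hd⟩
      refine ⟨v, hv1, ?_⟩
      rw [sum_inv]
      have hw' : y ^ 2 * (mt x').det ^ 2 ≤ ∑ i, ((mt x').adjugate.mulVec v) i ^ 2 := hw
      have hd' : (mt x').det ≠ 0 := hd
      have h1 : 0 < (mt x').det ^ 2 := by positivity
      calc y ^ 2 = ((mt x').det⁻¹) ^ 2 * (y ^ 2 * (mt x').det ^ 2) := by field_simp
        _ ≤ _ := by gcongr
  rw [this]
  exact hI.measurableSet.inter hD.measurableSet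

theorem Ev_act {U V : Matrix (Fin n) (Fin n) ℝ} (hU : U ∈ Matrix.unitaryGroup (Fin n) ℝ)
    (hV : V ∈ Matrix.unitaryGroup (Fin n) ℝ) {y : ℝ} {x : P n} (h : act U V x ∈ Ev n y) :
    x ∈ Ev n y := by
  obtain ⟨v, hv1, hv2⟩ := h
  refine ⟨Uᵀ.mulVec v, by rw [sq_orth (uTmem hU)]; exact hv1, ?_⟩
  have hUi : U⁻¹ = Uᵀ := Matrix.inv_eq_left_inv (uT hU).1
  have hVi : V⁻¹ = Vᵀ := Matrix.inv_eq_left_inv (uT hV).1
  rw [mt_act, Matrix.mul_inv_rev, Matrix.mul_inv_rev, hUi, hVi, ← Matrix.mulVec_mulVec,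
    sq_orth (uTmem hV), ← Matrix.mulVec_mulVec] at hv2
  exact hv2

theorem Ev_act_iff {U V : Matrix (Fin n) (Fin n) ℝ} (hU : U ∈ Matrix.unitaryGroup (Fin n) ℝ)
    (hV : V ∈ Matrix.unitaryGroup (Fin n) ℝ) {y : ℝ} {x : P n} :
    act U V x ∈ Ev n y ↔ x ∈ Ev n y := by
  refine ⟨Ev_act hU hV, fun h => Ev_act (uTmem hU) (uTmem hV) ?_⟩
  rw [act_act, (uT hU).1, (uT hV).2, act_one]
  exact h

theorem inv_dd {l : Fin n → ℝ} (hl : ∀ i, 0 < l i) (v : Fin n → ℝ) :
    ∑ i, ((mt (dd l))⁻¹.mulVec v) i ^ 2 = ∑ i, v i ^ 2 / l i := by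
  have h1 : (mt (dd l))⁻¹ = Matrix.diagonal fun i => (Real.sqrt (l i))⁻¹ := by
    apply Matrix.inv_eq_left_inv
    unfold dd
    rw [mt_un, Matrix.diagonal_mul_diagonal, ← Matrix.diagonal_one]
    congr 1
    funext i
    exact inv_mul_cancel₀ (Real.sqrt_pos.2 (hl i)).ne'
  rw [h1]
  refine Finset.sum_congr rfl fun i _ => ?_
  rw [Matrix.mulVec_diagonal, mul_pow, inv_pow, Real.sq_sqrt (hl i).le]
  ring

/-- the indicator of the complement of the event -/
noncomputable def Ac (n : ℕ) (y : ℝ) : P n → ℝ≥0∞ := ((Ev n y)ᶜ).indicator 1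

theorem meas_Ac {y : ℝ} (hy : 0 < y) : Measurable (Ac n y) :=
  measurable_one.indicator (meas_Ev hy).compl

theorem Ac_BI (y : ℝ) : BI (Ac n y) := by
  intro U hU V hV x
  unfold Ac
  by_cases h : x ∈ Ev n y
  · rw [Set.indicator_of_notMem (by rw [Set.mem_compl_iff, Ev_act_iff hU hV]; simpa using h),
      Set.indicator_of_notMem (by simpa using h)]
  · rw [Set.indicator_of_mem (by rw [Set.mem_compl_iff, Ev_act_iff hU hV]; exact h),
      Set.indicator_of_mem (by exact h)]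
    rfl

theorem Ev_dd {l m : Fin n → ℝ} (hl : ∀ i, 0 < l i) (hlm : l ≤ m) {y : ℝ}
    (h : dd m ∈ Ev n y) : dd l ∈ Ev n y := by
  obtain ⟨v, hv1, hv2⟩ := h
  refine ⟨v, hv1, hv2.trans ?_⟩
  rw [inv_dd hl, inv_dd fun i => (hl i).trans_le (hlm i)]
  refine Finset.sum_le_sum fun i _ => ?_
  exact div_le_div_of_nonneg_left (sq_nonneg _) (hl i) (hlm i)

theorem Ac_mono (y : ℝ) (l m : Fin n → ℝ) (hl : ∀ i, 0 < l i) (hlm : l ≤ m) :
    Ac n y (dd l) ≤ Ac n y (dd m) := by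
  unfold Ac
  by_cases h : dd m ∈ Ev n y
  · rw [Set.indicator_of_notMem (by simpa using Ev_dd hl hlm h)]
    exact zero_le
  · have h' : dd m ∈ (Ev n y)ᶜ := h
    rw [Set.indicator_of_mem h']
    exact Set.indicator_le_self _ _ _

theorem gw_shift (B x : P n) :
    gw (x - B) = ENNReal.ofReal (Real.exp (-(nsq B) / 2)) *
      (ENNReal.ofReal (Real.exp (dotp x B)) * gw x) := by
  unfold gw
  rw [← ENNReal.ofReal_mul (Real.exp_pos _).le, ← ENNReal.ofReal_mul (Real.exp_pos _).le]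
  congr 1
  have h1 : nsq (x - B) = nsq x - 2 * dotp x B + nsq B := by
    unfold nsq dotp
    rw [Finset.mul_sum, ← Finset.sum_sub_distrib, ← Finset.sum_add_distrib]
    refine Finset.sum_congr rfl fun p _ => ?_
    rw [Pi.sub_apply]
    ring
  have h2 : -(nsq x - 2 * dotp x B + nsq B) / 2 = -(nsq B) / 2 + (dotp x B + -(nsq x) / 2) := by
    ring
  rw [h1, h2, Real.exp_add, Real.exp_add]
  ring

theorem lint_shift (B : P n) (F : P n → ℝ≥0∞) (hF : Measurable F) :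
    ∫⁻ x, F (x + B) ∂(gam (Fin n × Fin n)) = ENNReal.ofReal (Real.exp (-(nsq B) / 2)) *
      ∫⁻ x, F x * ENNReal.ofReal (Real.exp (dotp x B)) ∂(gam (Fin n × Fin n)) := by
  have hcd : Measurable fun x : P n => ENNReal.ofReal (Real.exp (dotp x B)) := by
    refine ENNReal.measurable_ofReal.comp (Continuous.measurable ?_)
    unfold dotp; fun_prop
  rw [lint_gam (fun x => F (x + B)) (hF.comp (measurable_add_const B)),
    lint_gam (fun x => F x * ENNReal.ofReal (Real.exp (dotp x B))) (hF.mul hcd)]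
  have h1 : ∫⁻ x : P n, F (x + B) * gw x = ∫⁻ x : P n, F x * gw (x - B) := by
    have := lintegral_add_right_eq_self (μ := (volume : Measure (P n)))
      (fun x => F x * gw (x - B)) B
    rw [← this]
    refine lintegral_congr fun x => ?_
    rw [add_sub_cancel_right]
  have hm : Measurable fun x : P n => F x * ENNReal.ofReal (Real.exp (dotp x B)) * gw x :=
    (hF.mul hcd).mul meas_gw
  rw [h1, ← lintegral_const_mul _ hm]
  refine lintegral_congr fun x => ?_
  rw [gw_shift]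
  ring

theorem shift {y : ℝ} (hy : 0 < y) (B : P n) :
    gam (Fin n × Fin n) {x | x + B ∈ Ev n y} ≤ gam (Fin n × Fin n) (Ev n y) := by
  have hAm := meas_Ac (n := n) hy
  have h1 := compare B (Ac n y) hAm (Ac_BI y) (Ac_mono y)
  have h2 := lint_shift B (Ac n y) hAm
  have h3 := lint_shift B (fun _ => 1) measurable_const
  simp only [lintegral_const, measure_univ, mul_one, one_mul] at h3
  have e1 : ∫⁻ x, Ac n y x ∂(gam (Fin n × Fin n)) = gam (Fin n × Fin n) (Ev n y)ᶜ :=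
    lintegral_indicator_one (meas_Ev hy).compl
  have hmB : MeasurableSet {x : P n | x + B ∈ Ev n y} :=
    (measurable_add_const B) (meas_Ev hy)
  have e2 : ∫⁻ x, Ac n y (x + B) ∂(gam (Fin n × Fin n)) =
      gam (Fin n × Fin n) {x | x + B ∈ Ev n y}ᶜ := by
    rw [← lintegral_indicator_one hmB.compl]
    rfl
  have h4 : gam (Fin n × Fin n) (Ev n y)ᶜ ≤ gam (Fin n × Fin n) {x | x + B ∈ Ev n y}ᶜ := by
    rw [← e1, ← e2, h2]
    calc ∫⁻ x, Ac n y x ∂(gam (Fin n × Fin n))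
        = (∫⁻ x, Ac n y x ∂(gam (Fin n × Fin n))) * (ENNReal.ofReal (Real.exp (-(nsq B) / 2)) *
          ∫⁻ x, ENNReal.ofReal (Real.exp (dotp x B)) ∂(gam (Fin n × Fin n))) := by
          rw [← h3, mul_one]
      _ = ENNReal.ofReal (Real.exp (-(nsq B) / 2)) *
          ((∫⁻ x, Ac n y x ∂(gam (Fin n × Fin n))) *
          ∫⁻ x, ENNReal.ofReal (Real.exp (dotp x B)) ∂(gam (Fin n × Fin n))) := by ring
      _ ≤ _ := mul_le_mul' le_rfl h1
  rw [prob_compl_eq_one_sub (meas_Ev hy), prob_compl_eq_one_sub hmB] at h4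
  have h5 : gam (Fin n × Fin n) {x | x + B ∈ Ev n y} ≤ 1 := prob_le_one
  have h6 : gam (Fin n × Fin n) (Ev n y) ≤ 1 := prob_le_one
  exact (ENNReal.sub_le_sub_iff_left h5 (by simp)).1 h4

end Pool.Agent.Run7.h884.SS
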