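import Pool.Agent.Run7.h884.SS.Col

/-! The distribution function of the smallest singular value is star-shaped. -/

set_option autoImplicit false

namespace Pool.Agent.Run7.h884.SS

open MeasureTheory Set Matrix ProbabilityTheory
open scoped ENNReal
open Pool.Agent.H992R2 (gam)

variable {n N : ℕ}

theorem gam_sv : ∃ c : ℝ≥0∞, c ≠ 0 ∧ c ≠ ⊤ ∧ ∀ F : P n → ℝ≥0∞, Measurable F → BI F →
      ∫⁻ x, F x ∂(gam (Fin n × Fin n)) = c * ∫⁻ l : Fin n → ℝ, F (dd l) * ww l := by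
  obtain ⟨c, hc0, hct, hc⟩ := sv (n := n)
  refine ⟨c, hc0, hct, fun F hF hFB => ?_⟩
  rw [lint_gam F hF, hc (fun x => F x * gw x) (hF.mul meas_gw)]
  · congr 1
    refine lintegral_congr fun l => ?_
    unfold ww
    rw [mul_assoc]
  · intro U hU V hV x
    show F (act U V x) * gw (act U V x) = F x * gw x
    rw [hFB U hU V hV, gw_BI U hU V hV]

theorem Ev_iff {l : Fin (N + 1) → ℝ} (hl : l ∈ Cp (N + 1)) {y : ℝ} :
    dd l ∈ Ev (N + 1) y ↔ l 0 * y ^ 2 ≤ 1 := by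
  constructor
  · rintro ⟨v, hv1, hv2⟩
    rw [inv_dd hl.2] at hv2
    have h1 : ∑ i, v i ^ 2 / l i ≤ ∑ i, v i ^ 2 / l 0 := by
      refine Finset.sum_le_sum fun i _ => ?_
      exact div_le_div_of_nonneg_left (sq_nonneg _) (hl.2 0) (hl.1.monotone (Fin.zero_le i))
    rw [← Finset.sum_div] at h1
    have h2 : y ^ 2 ≤ 1 / l 0 := by
      refine (hv2.trans h1).trans ?_
      have := hl.2 0
      gcongr
    rw [le_div_iff₀ (hl.2 0)] at h2
    linarith
  · intro h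
    refine ⟨Pi.single 0 1, by simp [Pi.single_apply], ?_⟩
    rw [inv_dd hl.2, Finset.sum_eq_single 0]
    · rw [Pi.single_eq_same, one_pow, le_div_iff₀ (hl.2 0)]
      linarith
    · intro i _ hi
      rw [Pi.single_eq_of_ne hi]
      simp
    · intro h; exact absurd (Finset.mem_univ _) h

/-- the weights of the dilation -/
def dv (N : ℕ) (a : ℝ) : Fin (N + 1) → ℝ := fun i => if i = 0 then a else 1

/-- dilation of the first coordinate -/
def Dl (a : ℝ) (l : Fin (N + 1) → ℝ) : Fin (N + 1) → ℝ := fun i => dv N a i * l i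

theorem Dl_zero (a : ℝ) (l : Fin (N + 1) → ℝ) : Dl a l 0 = a * l 0 := by simp [Dl, dv]

theorem Dl_succ (a : ℝ) (l : Fin (N + 1) → ℝ) (i : Fin N) : Dl a l i.succ = l i.succ := by
  simp [Dl, dv]

theorem Dl_ne (a : ℝ) (l : Fin (N + 1) → ℝ) {i : Fin (N + 1)} (hi : i ≠ 0) : Dl a l i = l i := by
  simp [Dl, dv, hi]

theorem lint_Dl {a : ℝ} (ha : 0 < a) (F : (Fin (N + 1) → ℝ) → ℝ≥0∞) (hF : Measurable F) :
    ∫⁻ l, F (Dl a l) = ENNReal.ofReal a⁻¹ * ∫⁻ l, F l := by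
  have hd : (Matrix.diagonal (dv N a)).det = a := by
    rw [Matrix.det_diagonal, Fin.prod_univ_succ]
    simp [dv]
  have hd0 : (Matrix.diagonal (dv N a)).det ≠ 0 := by rw [hd]; exact ha.ne'
  have h1 := Real.map_matrix_volume_pi_eq_smul_volume_pi hd0
  have h2 : Measurable (Matrix.toLin' (Matrix.diagonal (dv N a))) :=
    (LinearMap.continuous_of_finiteDimensional _).measurable
  have h3 : ∀ l : Fin (N + 1) → ℝ, Dl a l = Matrix.toLin' (Matrix.diagonal (dv N a)) l := by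
    intro l
    funext i
    rw [Matrix.toLin'_apply, Matrix.mulVec_diagonal]
    rfl
  simp_rw [h3]
  rw [← lintegral_map hF h2, h1, lintegral_smul_measure, hd, smul_eq_mul,
    abs_of_pos (inv_pos.2 ha)]

theorem Dl_mem {a : ℝ} (ha : 0 < a) (ha1 : a ≤ 1) {l : Fin (N + 1) → ℝ} (hl : l ∈ Cp (N + 1)) :
    Dl a l ∈ Cp (N + 1) := by
  constructor
  · intro i j hij
    have hj : j ≠ 0 := (Fin.pos_of_ne_zero (by rintro rfl; exact absurd hij (Fin.not_lt_zero i))).ne'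
    rw [Dl_ne a l hj]
    by_cases hi : i = 0
    · subst hi
      rw [Dl_zero]
      have h1 := hl.1 hij
      have h2 := hl.2 0
      nlinarith
    · rw [Dl_ne a l hi]
      exact hl.1 hij
  · intro i
    by_cases hi : i = 0
    · subst hi
      rw [Dl_zero]
      exact mul_pos ha (hl.2 0)
    · rw [Dl_ne a l hi]
      exact hl.2 i

theorem wr_Dl {a : ℝ} (ha : 0 < a) (ha1 : a ≤ 1) {l : Fin (N + 1) → ℝ} (hl : l ∈ Cp (N + 1)) :
    (Real.sqrt a)⁻¹ * wr l ≤ wr (Dl a l) := by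
  have h1 : vdm l ≤ vdm (Dl a l) := by
    unfold vdm
    refine Finset.prod_le_prod (fun p _ => sub_nonneg.2 (hl.1 p.2).le) fun p _ => ?_
    have hj : p.1.2 ≠ 0 := by
      intro h
      have := p.2
      rw [h] at this
      exact absurd this (Fin.not_lt_zero _)
    rw [Dl_ne a l hj]
    by_cases hi : p.1.1 = 0
    · rw [hi, Dl_zero]
      have h2 := hl.2 0
      nlinarith
    · rw [Dl_ne a l hi]
  have h2 : (Real.sqrt a)⁻¹ * ∏ i, ((Real.sqrt (l i))⁻¹ * Real.exp (-(l i) / 2)) ≤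
      ∏ i, ((Real.sqrt (Dl a l i))⁻¹ * Real.exp (-(Dl a l i) / 2)) := by
    rw [Fin.prod_univ_succ, Fin.prod_univ_succ]
    simp only [Dl_succ]
    rw [Dl_zero, Real.sqrt_mul ha.le, mul_inv]
    have h3 : Real.exp (-(l 0) / 2) ≤ Real.exp (-(a * l 0) / 2) := by
      apply Real.exp_le_exp.2
      have := hl.2 0
      nlinarith
    have h4 : 0 ≤ ∏ i : Fin N, ((Real.sqrt (l i.succ))⁻¹ * Real.exp (-(l i.succ) / 2)) :=
      Finset.prod_nonneg fun i _ => by positivity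
    calc (Real.sqrt a)⁻¹ * ((Real.sqrt (l 0))⁻¹ * Real.exp (-(l 0) / 2) *
          ∏ i : Fin N, ((Real.sqrt (l i.succ))⁻¹ * Real.exp (-(l i.succ) / 2)))
        = ((Real.sqrt a)⁻¹ * (Real.sqrt (l 0))⁻¹ * Real.exp (-(l 0) / 2)) *
          ∏ i : Fin N, ((Real.sqrt (l i.succ))⁻¹ * Real.exp (-(l i.succ) / 2)) := by ring
      _ ≤ _ := by gcongr
  unfold wr
  calc _ = vdm l * ((Real.sqrt a)⁻¹ * ∏ i, ((Real.sqrt (l i))⁻¹ * Real.exp (-(l i) / 2))) := by
        ring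
    _ ≤ vdm (Dl a l) * ∏ i, ((Real.sqrt (Dl a l i))⁻¹ * Real.exp (-(Dl a l i) / 2)) := by
        refine mul_le_mul h1 h2 ?_ ?_
        · exact mul_nonneg (by positivity) (Finset.prod_nonneg fun i _ => by positivity)
        · exact (vdm_nonneg hl).trans h1

theorem ww_Dl {a : ℝ} (ha : 0 < a) (ha1 : a ≤ 1) {l : Fin (N + 1) → ℝ} (hl : l ∈ Cp (N + 1)) :
    ENNReal.ofReal (Real.sqrt a)⁻¹ * ww l ≤ ww (Dl a l) := by
  rw [ww_of_mem hl, ww_of_mem (Dl_mem ha ha1 hl), ← ENNReal.ofReal_mul (by positivity)]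
  apply ENNReal.ofReal_le_ofReal
  have := wr_Dl ha ha1 hl
  calc _ = ((Real.sqrt (2 * Real.pi))⁻¹) ^ ((N + 1) * (N + 1)) * ((Real.sqrt a)⁻¹ * wr l) := by ring
    _ ≤ _ := by gcongr

theorem Ev_BI (y : ℝ) : BI ((Ev n y).indicator 1) := by
  intro U hU V hV x
  by_cases h : x ∈ Ev n y
  · rw [Set.indicator_of_mem ((Ev_act_iff hU hV).2 h), Set.indicator_of_mem h]
    rfl
  · rw [Set.indicator_of_notMem (fun h' => h ((Ev_act_iff hU hV).1 h')),
      Set.indicator_of_notMem h]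

theorem star {s t : ℝ} (hs : 0 < s) (hst : s ≤ t) :
    ENNReal.ofReal (s / t) * gam (Fin (N + 1) × Fin (N + 1)) (Ev (N + 1) t⁻¹) ≤
      gam (Fin (N + 1) × Fin (N + 1)) (Ev (N + 1) s⁻¹) := by
  have ht : 0 < t := hs.trans_le hst
  obtain ⟨c, hc0, hct, hc⟩ := gam_sv (n := N + 1)
  have e : ∀ y : ℝ, 0 < y → gam (Fin (N + 1) × Fin (N + 1)) (Ev (N + 1) y) =
      c * ∫⁻ l : Fin (N + 1) → ℝ, (Ev (N + 1) y).indicator 1 (dd l) * ww l := by
    intro y hy
    rw [← lintegral_indicator_one (meas_Ev hy)]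
    exact hc _ (measurable_one.indicator (meas_Ev hy)) (Ev_BI y)
  rw [e _ (inv_pos.2 ht), e _ (inv_pos.2 hs)]
  set a : ℝ := (s / t) ^ 2 with ha
  have hst1 : s / t ≤ 1 := by rw [div_le_one ht]; exact hst
  have hstp : 0 < s / t := by positivity
  have ha0 : 0 < a := by positivity
  have ha1 : a ≤ 1 := by
    rw [ha]
    exact pow_le_one₀ hstp.le hst1
  have hsa : Real.sqrt a = s / t := by rw [ha, Real.sqrt_sq hstp.le]
  have hFm : ∀ y : ℝ, 0 < y → Measurable fun l : Fin (N + 1) → ℝ =>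
      (Ev (N + 1) y).indicator (1 : P (N + 1) → ℝ≥0∞) (dd l) * ww l := fun y hy =>
    ((measurable_one.indicator (meas_Ev hy)).comp meas_dd).mul meas_ww
  have h1 := lint_Dl ha0 _ (hFm s⁻¹ (inv_pos.2 hs))
  have h2 : ∫⁻ l : Fin (N + 1) → ℝ, (Ev (N + 1) s⁻¹).indicator 1 (dd l) * ww l =
      ENNReal.ofReal a * ∫⁻ l : Fin (N + 1) → ℝ,
        (Ev (N + 1) s⁻¹).indicator 1 (dd (Dl a l)) * ww (Dl a l) := by
    rw [h1, ← mul_assoc, ← ENNReal.ofReal_mul ha0.le, mul_inv_cancel₀ ha0.ne', ENNReal.ofReal_one,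
      one_mul]
  have h3 : ENNReal.ofReal (Real.sqrt a)⁻¹ * ∫⁻ l : Fin (N + 1) → ℝ,
      (Ev (N + 1) t⁻¹).indicator 1 (dd l) * ww l ≤ ∫⁻ l : Fin (N + 1) → ℝ,
        (Ev (N + 1) s⁻¹).indicator 1 (dd (Dl a l)) * ww (Dl a l) := by
    rw [← lintegral_const_mul _ (hFm t⁻¹ (inv_pos.2 ht))]
    refine lintegral_mono fun l => ?_
    show ENNReal.ofReal (Real.sqrt a)⁻¹ * ((Ev (N + 1) t⁻¹).indicator 1 (dd l) * ww l) ≤
      (Ev (N + 1) s⁻¹).indicator 1 (dd (Dl a l)) * ww (Dl a l)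
    by_cases hl : l ∈ Cp (N + 1)
    · by_cases hE : dd l ∈ Ev (N + 1) t⁻¹
      · have hE2 : dd (Dl a l) ∈ Ev (N + 1) s⁻¹ := by
          rw [Ev_iff (Dl_mem ha0 ha1 hl), Dl_zero]
          rw [Ev_iff hl] at hE
          have : a * l 0 * s⁻¹ ^ 2 = l 0 * t⁻¹ ^ 2 := by
            rw [ha]
            field_simp
          rw [this]
          exact hE
        rw [Set.indicator_of_mem hE, Set.indicator_of_mem hE2]
        simp only [Pi.one_apply, one_mul]
        exact ww_Dl ha0 ha1 hl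
      · rw [Set.indicator_of_notMem hE]
        simp
    · rw [ww_of_not hl]
      simp
  rw [h2]
  calc ENNReal.ofReal (s / t) * (c * ∫⁻ l : Fin (N + 1) → ℝ,
        (Ev (N + 1) t⁻¹).indicator 1 (dd l) * ww l)
      = c * (ENNReal.ofReal a * (ENNReal.ofReal (Real.sqrt a)⁻¹ * ∫⁻ l : Fin (N + 1) → ℝ,
        (Ev (N + 1) t⁻¹).indicator 1 (dd l) * ww l)) := by
        have : ENNReal.ofReal (s / t) = ENNReal.ofReal a * ENNReal.ofReal (Real.sqrt a)⁻¹ := by
          rw [← ENNReal.ofReal_mul ha0.le, hsa, ha]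
          congr 1
          field_simp
        rw [this]
        ring
    _ ≤ _ := by gcongr

end Pool.Agent.Run7.h884.SS
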