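import Pool.Agent.Run7.h884.SS.Conj

/-! Invariant measures on invertible and on positive definite matrices; the Wishart formula up
to a constant. -/

set_option autoImplicit false

namespace Pool.Agent.Run7.h884.SS

open MeasureTheory Set Matrix
open scoped ENNReal
open Pool.Agent.H888R2.KC

variable {n : ℕ}

/-- the map `A ↦ Aᵀ A` -/
noncomputable def q (g : P n) : S n := ps (Ph n) ((mt g)ᵀ * mt g)

theorem symTT (A : Matrix (Fin n) (Fin n) ℝ) : (Aᵀ * A)ᴴ = Aᵀ * A := by
  rw [Matrix.conjTranspose_eq_transpose_of_trivial, Matrix.transpose_mul,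
      Matrix.transpose_transpose]

theorem Ph_q (g : P n) : Ph n (q g) = (mt g)ᵀ * mt g := Phi_ps (frm n) _ (symTT _)

theorem cont_q : Continuous (q : P n → S n) :=
  (W7x.cont_ps (Ph n)).comp (cont_mt.matrix_transpose.matrix_mul cont_mt)

/-- positive definite points -/
def Pos (n : ℕ) : Set (S n) :=
  {x | (∀ v : Fin n → ℝ, 0 ≤ v ⬝ᵥ (Ph n x *ᵥ v)) ∧ (Ph n x).det ≠ 0}

theorem cont_Ph : Continuous (Ph n) := W7x.cont_Phi (Ph n)

theorem meas_Pos : MeasurableSet (Pos n) := by
  have h1 : IsClosed {x : S n | ∀ v : Fin n → ℝ, 0 ≤ v ⬝ᵥ (Ph n x *ᵥ v)} := by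
    have : {x : S n | ∀ v : Fin n → ℝ, 0 ≤ v ⬝ᵥ (Ph n x *ᵥ v)} =
        ⋂ v : Fin n → ℝ, {x | 0 ≤ v ⬝ᵥ (Ph n x *ᵥ v)} := by
      ext x
      simp only [mem_iInter]
      exact Iff.rfl
    rw [this]
    refine isClosed_iInter fun v => isClosed_le continuous_const ?_
    exact continuous_const.dotProduct (cont_Ph.matrix_mulVec continuous_const)
  have h2 : IsOpen {x : S n | (Ph n x).det ≠ 0} :=
    isOpen_ne_fun cont_Ph.matrix_det continuous_const
  exact h1.measurableSet.inter h2.measurableSet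

theorem q_mem_Pos {g : P n} (hg : (mt g).det ≠ 0) : q g ∈ Pos n := by
  refine ⟨fun v => ?_, ?_⟩
  · rw [Ph_q, ← Matrix.mulVec_mulVec, Matrix.dotProduct_mulVec, ← Matrix.mulVec_transpose,
      Matrix.transpose_transpose]
    exact Finset.sum_nonneg fun i _ => mul_self_nonneg _
  · rw [Ph_q, Matrix.det_mul, Matrix.det_transpose]
    exact mul_ne_zero hg hg

theorem Pos_q {x : S n} (hx : x ∈ Pos n) : ∃ g : P n, (mt g).det ≠ 0 ∧ x = q g := by
  obtain ⟨W, hW, l, hl, hxe⟩ := spectral (frm n) x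
  have h1 : Ph n x = W * (Matrix.diagonal fun i => l i) * Wᵀ := by
    rw [hxe, Phi_cj (frm n), Phi_dg (frm n), Matrix.conjTranspose_eq_transpose_of_trivial]
    rfl
  have hnn : ∀ i, 0 ≤ l i := by
    intro i
    have h2 := hx.1 (W *ᵥ Pi.single i 1)
    rw [h1, Matrix.mulVec_mulVec, Matrix.mul_assoc, (uT hW).1, Matrix.mul_one,
      ← Matrix.mulVec_mulVec, Matrix.dotProduct_mulVec, ← Matrix.mulVec_transpose,
      Matrix.mulVec_mulVec, (uT hW).1, Matrix.one_mulVec] at h2
    simpa using h2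
  have hpos : ∀ i, 0 < l i := by
    intro i
    refine lt_of_le_of_ne (hnn i) fun h0 => hx.2 ?_
    rw [h1, Matrix.det_mul, Matrix.det_mul, Matrix.det_diagonal,
      Finset.prod_eq_zero (Finset.mem_univ i) h0.symm]
    ring
  refine ⟨un (Matrix.diagonal (fun i => Real.sqrt (l i)) * Wᵀ), ?_, ?_⟩
  · rw [mt_un, Matrix.det_mul, Matrix.det_diagonal]
    exact mul_ne_zero (Finset.prod_ne_zero_iff.2 fun i _ => (Real.sqrt_pos.2 (hpos i)).ne')
      (uDet0 (uTmem hW))
  · apply W7x.Phi_inj (frm n)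
    rw [Ph_q, mt_un, h1, Matrix.transpose_mul, Matrix.transpose_transpose,
      Matrix.diagonal_transpose]
    have : W * Matrix.diagonal (fun i => Real.sqrt (l i)) *
        (Matrix.diagonal (fun i => Real.sqrt (l i)) * Wᵀ) =
        W * (Matrix.diagonal (fun i => Real.sqrt (l i)) *
        Matrix.diagonal (fun i => Real.sqrt (l i))) * Wᵀ := by simp only [Matrix.mul_assoc]
    rw [this, Matrix.diagonal_mul_diagonal]
    congr 3
    funext i
    exact (Real.mul_self_sqrt (hnn i)).symm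

/-- Haar density on invertible matrices -/
noncomputable def kap (g : P n) : ℝ≥0∞ := ENNReal.ofReal ((|(mt g).det| ^ n)⁻¹)

/-- invariant density on positive definite matrices -/
noncomputable def dn (x : S n) : ℝ≥0∞ := ENNReal.ofReal ((Real.sqrt (Ph n x).det ^ (n + 1))⁻¹)

theorem meas_kap : Measurable (kap : P n → ℝ≥0∞) :=
  ENNReal.measurable_ofReal.comp (((cont_mt.matrix_det.abs).measurable.pow_const n).inv)

theorem meas_dn : Measurable (dn : S n → ℝ≥0∞) :=
  ENNReal.measurable_ofReal.comp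
    (((Real.continuous_sqrt.comp cont_Ph.matrix_det).measurable.pow_const (n + 1)).inv)

theorem kap_zero {g : P n} (hg : (mt g).det = 0) : kap g = 0 := by
  unfold kap
  rw [hg, abs_zero]
  rcases Nat.eq_zero_or_pos n with h | h
  · subst h
    simp at hg
  · rw [zero_pow h.ne', _root_.inv_zero, ENNReal.ofReal_zero]

theorem haar_inv (h k : Matrix (Fin n) (Fin n) ℝ) (hh : h.det ≠ 0) (hk : k.det ≠ 0)
    (F : P n → ℝ≥0∞) (hF : Measurable F) :
    ∫⁻ g, F (act h k g) * kap g = ∫⁻ g, F g * kap g := by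
  have h1 := lint_act h k hh hk (fun g => F g * kap g) (hF.mul meas_kap)
  have e : ∀ g : P n, F (act h k g) * kap (act h k g) =
      ENNReal.ofReal ((|h.det| ^ n * |k.det| ^ n)⁻¹) * (F (act h k g) * kap g) := by
    intro g
    have : kap (act h k g) = ENNReal.ofReal ((|h.det| ^ n * |k.det| ^ n)⁻¹) * kap g := by
      unfold kap
      rw [← ENNReal.ofReal_mul (by positivity), mt_act, Matrix.det_mul, Matrix.det_mul, abs_mul,
        abs_mul]
      congr 1
      rw [mul_pow, mul_pow, mul_inv, mul_inv, mul_inv]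
      ring
    rw [this]
    ring
  simp only [e] at h1
  have hm : Measurable fun g : P n => F (act h k g) * kap g :=
    (hF.comp (meas_act h k)).mul meas_kap
  rw [lintegral_const_mul _ hm] at h1
  have hc : ENNReal.ofReal ((|h.det| ^ n * |k.det| ^ n)⁻¹) ≠ 0 := by
    rw [ne_eq, ENNReal.ofReal_eq_zero, not_le]
    have := abs_pos.2 hh
    have := abs_pos.2 hk
    positivity
  exact (ENNReal.mul_right_inj hc ENNReal.ofReal_ne_top).1 h1

theorem cj_mem_Pos {g : Matrix (Fin n) (Fin n) ℝ} (hg : g.det ≠ 0) {x : S n} (hx : x ∈ Pos n) :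
    cj (Ph n) g x ∈ Pos n := by
  obtain ⟨a, ha, rfl⟩ := Pos_q hx
  have : cj (Ph n) g (q a) = q (un (mt a * gᵀ)) := by
    apply W7x.Phi_inj (frm n)
    rw [Phi_cj (frm n), Ph_q, Ph_q, mt_un, Matrix.conjTranspose_eq_transpose_of_trivial,
      Matrix.transpose_mul, Matrix.transpose_transpose]
    simp only [Matrix.mul_assoc]
  rw [this]
  apply q_mem_Pos
  rw [mt_un, Matrix.det_mul, Matrix.det_transpose]
  exact mul_ne_zero ha hg

theorem cj_inv_left {g : Matrix (Fin n) (Fin n) ℝ} (hg : g.det ≠ 0) (x : S n) :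
    cj (Ph n) g⁻¹ (cj (Ph n) g x) = x := by
  rw [cj_cj (frm n), Matrix.nonsing_inv_mul _ (isUnit_iff_ne_zero.2 hg), cj_one (frm n)]

theorem cj_inv_right {g : Matrix (Fin n) (Fin n) ℝ} (hg : g.det ≠ 0) (x : S n) :
    cj (Ph n) g (cj (Ph n) g⁻¹ x) = x := by
  rw [cj_cj (frm n), Matrix.mul_nonsing_inv _ (isUnit_iff_ne_zero.2 hg), cj_one (frm n)]

theorem det_inv_ne {g : Matrix (Fin n) (Fin n) ℝ} (hg : g.det ≠ 0) : g⁻¹.det ≠ 0 := by
  rw [Matrix.det_nonsing_inv, Ring.inverse_eq_inv']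
  exact inv_ne_zero hg

theorem cj_mem_Pos_iff {g : Matrix (Fin n) (Fin n) ℝ} (hg : g.det ≠ 0) (x : S n) :
    cj (Ph n) g x ∈ Pos n ↔ x ∈ Pos n := by
  refine ⟨fun h => ?_, cj_mem_Pos hg⟩
  have := cj_mem_Pos (det_inv_ne hg) h
  rwa [cj_inv_left hg] at this

theorem nu_inv (g : Matrix (Fin n) (Fin n) ℝ) (hg : g.det ≠ 0) (G : S n → ℝ≥0∞)
    (hG : Measurable G) :
    ∫⁻ x in Pos n, G (cj (Ph n) g x) * dn x = ∫⁻ x in Pos n, G x * dn x := by
  have h1 := lint_cj g hg ((Pos n).indicator fun x => G x * dn x)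
    ((hG.mul meas_dn).indicator meas_Pos)
  have e : ∀ x : S n, (Pos n).indicator (fun x => G x * dn x) (cj (Ph n) g x) =
      ENNReal.ofReal ((|g.det| ^ (n + 1))⁻¹) *
        (Pos n).indicator (fun x => G (cj (Ph n) g x) * dn x) x := by
    intro x
    by_cases hx : x ∈ Pos n
    · rw [Set.indicator_of_mem ((cj_mem_Pos_iff hg x).2 hx), Set.indicator_of_mem hx]
      have : dn (cj (Ph n) g x) = ENNReal.ofReal ((|g.det| ^ (n + 1))⁻¹) * dn x := by
        unfold dn
        rw [← ENNReal.ofReal_mul (by positivity), Phi_cj (frm n), Matrix.det_mul, Matrix.det_mul,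
          Matrix.conjTranspose_eq_transpose_of_trivial, Matrix.det_transpose]
        congr 1
        have : g.det * (Ph n x).det * g.det = g.det ^ 2 * (Ph n x).det := by ring
        rw [this, Real.sqrt_mul (sq_nonneg _), Real.sqrt_sq_eq_abs, mul_pow, mul_inv]
      rw [this]
      ring
    · rw [Set.indicator_of_notMem (fun h => hx ((cj_mem_Pos_iff hg x).1 h)),
        Set.indicator_of_notMem hx, mul_zero]
  simp only [e] at h1
  have hm : Measurable ((Pos n).indicator fun x => G (cj (Ph n) g x) * dn x) :=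
    ((hG.comp (meas_cj g)).mul meas_dn).indicator meas_Pos
  rw [lintegral_const_mul _ hm, lintegral_indicator meas_Pos, lintegral_indicator meas_Pos] at h1
  have hc : ENNReal.ofReal ((|g.det| ^ (n + 1))⁻¹) ≠ 0 := by
    rw [ne_eq, ENNReal.ofReal_eq_zero, not_le]
    have := abs_pos.2 hg
    positivity
  exact (ENNReal.mul_right_inj hc ENNReal.ofReal_ne_top).1 h1

/-- the image of Haar measure -/
noncomputable def Lam (G : S n → ℝ≥0∞) : ℝ≥0∞ := ∫⁻ g : P n, G (q g) * kap g

/-- the invariant measure -/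
noncomputable def nu (G : S n → ℝ≥0∞) : ℝ≥0∞ := ∫⁻ x in Pos n, G x * dn x

/-- the image of Haar measure under inversion -/
noncomputable def Lam' (G : S n → ℝ≥0∞) : ℝ≥0∞ := ∫⁻ g : P n, G (q (un (mt g)⁻¹)) * kap g

theorem meas_inv : Measurable fun g : P n => un (mt g)⁻¹ := by
  have h : ∀ g : P n, un (mt g)⁻¹ = fun p => ((mt g).det)⁻¹ * (mt g).adjugate p.1 p.2 := by
    intro g
    funext p
    simp only [un, Matrix.inv_def, Matrix.smul_apply, smul_eq_mul, Ring.inverse_eq_inv']
  simp_rw [h]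
  rw [measurable_pi_iff]
  intro p
  exact (cont_mt.matrix_det.measurable.inv).mul
    ((cont_mt.matrix_adjugate.matrix_elem p.1 p.2).measurable)

/-- the action of matrices on symmetric matrices -/
noncomputable def A1 (g : P n) (x : S n) : S n := cj (Ph n) (mt g)ᵀ x

/-- the action of inverses -/
noncomputable def A2 (g : P n) (x : S n) : S n := cj (Ph n) ((mt g)ᵀ)⁻¹ x

theorem meas_A1 : Measurable fun z : P n × S n => A1 z.1 z.2 := by
  have : Continuous fun z : P n × S n => A1 z.1 z.2 := by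
    show Continuous fun z : P n × S n => ps (Ph n) ((mt z.1)ᵀ * Ph n z.2 * ((mt z.1)ᵀ)ᴴ)
    refine (W7x.cont_ps (Ph n)).comp ?_
    have c1 : Continuous fun z : P n × S n => (mt z.1)ᵀ :=
      (cont_mt.comp continuous_fst).matrix_transpose
    exact (c1.matrix_mul (cont_Ph.comp continuous_snd)).matrix_mul c1.matrix_conjTranspose
  exact this.measurable

theorem A2_eq (g : P n) (x : S n) : A2 g x = A1 (un (mt g)⁻¹) x := by
  unfold A2 A1
  rw [mt_un, Matrix.transpose_nonsing_inv]

theorem meas_A2 : Measurable fun z : P n × S n => A2 z.1 z.2 := by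
  have h : Measurable fun z : P n × S n => (un (mt z.1)⁻¹, z.2) :=
    (meas_inv.comp measurable_fst).prodMk measurable_snd
  have h2 : (fun z : P n × S n => A2 z.1 z.2) =
      (fun z : P n × S n => A1 z.1 z.2) ∘ fun z : P n × S n => (un (mt z.1)⁻¹, z.2) := by
    funext z
    exact A2_eq z.1 z.2
  rw [h2]
  exact meas_A1.comp h

theorem meas_A1' (g : P n) : Measurable (A1 g) := meas_cj _

theorem meas_A2' (g : P n) : Measurable (A2 g) := meas_cj _

theorem meas_A2'' (x : S n) : Measurable fun g : P n => A2 g x := by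
  have h : Measurable fun g : P n => (g, x) := measurable_id.prodMk measurable_const
  have h2 : (fun g : P n => A2 g x) =
      (fun z : P n × S n => A2 z.1 z.2) ∘ fun g : P n => (g, x) := rfl
  rw [h2]
  exact meas_A2.comp h

theorem A1_q (a g : P n) : A1 g (q a) = q (act (mt a) 1 g) := by
  apply W7x.Phi_inj (frm n)
  unfold A1
  rw [Phi_cj (frm n), Ph_q, Ph_q, mt_act, Matrix.mul_one,
    Matrix.conjTranspose_eq_transpose_of_trivial, Matrix.transpose_mul,
    Matrix.transpose_transpose]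
  simp only [Matrix.mul_assoc]

theorem A2_q {a : P n} (ha : (mt a).det ≠ 0) (g : P n) :
    A2 (act 1 (mt a) g) (q a) = q (un (mt g)⁻¹) := by
  apply W7x.Phi_inj (frm n)
  unfold A2
  rw [Phi_cj (frm n), Ph_q, Ph_q, mt_act, mt_un, Matrix.one_mul,
    Matrix.conjTranspose_eq_transpose_of_trivial, ← Matrix.transpose_nonsing_inv,
    Matrix.transpose_transpose, Matrix.mul_inv_rev, Matrix.transpose_mul]
  have ha2 : (mt a) * (mt a)⁻¹ = 1 :=
    Matrix.mul_nonsing_inv _ (isUnit_iff_ne_zero.2 ha)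
  have ha3 : ((mt a)⁻¹)ᵀ * (mt a)ᵀ = 1 := by
    rw [← Matrix.transpose_mul, ha2, Matrix.transpose_one]
  calc ((mt g)⁻¹)ᵀ * ((mt a)⁻¹)ᵀ * ((mt a)ᵀ * mt a) * ((mt a)⁻¹ * (mt g)⁻¹)
      = ((mt g)⁻¹)ᵀ * (((mt a)⁻¹)ᵀ * (mt a)ᵀ) * (mt a * (mt a)⁻¹) * (mt g)⁻¹ := by
        simp only [Matrix.mul_assoc]
    _ = _ := by rw [ha2, ha3, Matrix.mul_one, Matrix.mul_one]

theorem A1_A2 {g : P n} (hg : (mt g).det ≠ 0) (x : S n) : A1 g (A2 g x) = x := by
  have hgt : (mt g)ᵀ.det ≠ 0 := by rwa [Matrix.det_transpose]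
  exact cj_inv_right hgt x

theorem nu_A2 {g : P n} (hg : (mt g).det ≠ 0) (G : S n → ℝ≥0∞) (hG : Measurable G) :
    ∫⁻ x in Pos n, G (A2 g x) * dn x = ∫⁻ x in Pos n, G x * dn x := by
  have hgt : (mt g)ᵀ.det ≠ 0 := by rwa [Matrix.det_transpose]
  exact nu_inv _ (det_inv_ne hgt) G hG

/-- the double integral -/
noncomputable def II2 (G K : S n → ℝ≥0∞) : ℝ≥0∞ :=
  ∫⁻ g : P n, (∫⁻ x in Pos n, G (A1 g x) * K x * dn x) * kap g

theorem swap_aux (w : P n → S n → ℝ≥0∞) (hw : Measurable fun z : P n × S n => w z.1 z.2) :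
    ∫⁻ g : P n, (∫⁻ x in Pos n, w g x) * kap g =
      ∫⁻ x in Pos n, ∫⁻ g : P n, w g x * kap g := by
  have h1 : ∀ g : P n, (∫⁻ x in Pos n, w g x) * kap g = ∫⁻ x in Pos n, w g x * kap g := by
    intro g
    have hm : Measurable (w g) := hw.comp (measurable_const.prodMk measurable_id)
    rw [lintegral_mul_const _ hm]
  simp only [h1]
  rw [lintegral_lintegral_swap]
  exact (hw.mul (meas_kap.comp measurable_fst)).aemeasurable

theorem II2_one (G K : S n → ℝ≥0∞) (hG : Measurable G) (hK : Measurable K) :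
    II2 G K = Lam G * nu K := by
  have hw : Measurable fun z : P n × S n => G (A1 z.1 z.2) * K z.2 * dn z.2 :=
    ((hG.comp meas_A1).mul (hK.comp measurable_snd)).mul (meas_dn.comp measurable_snd)
  unfold II2
  rw [swap_aux (fun g x => G (A1 g x) * K x * dn x) hw]
  have hmq : Measurable fun g : P n => G (q g) := hG.comp cont_q.measurable
  have key : ∀ x ∈ Pos n, ∫⁻ g : P n, G (A1 g x) * K x * dn x * kap g =
      Lam G * (K x * dn x) := by
    intro x hx
    obtain ⟨a, ha, rfl⟩ := Pos_q hx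
    have h2 := haar_inv (mt a) 1 ha (by simp) (fun g => G (q g)) hmq
    have h3 : ∀ g : P n, G (A1 g (q a)) * K (q a) * dn (q a) * kap g =
        (G (q (act (mt a) 1 g)) * kap g) * (K (q a) * dn (q a)) := by
      intro g; rw [A1_q]; ring
    simp only [h3]
    have hm : Measurable fun g : P n => G (q (act (mt a) 1 g)) * kap g :=
      (hmq.comp (meas_act _ _)).mul meas_kap
    rw [lintegral_mul_const _ hm, h2]
    rfl
  have hm' : Measurable fun x : S n => K x * dn x := hK.mul meas_dn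
  rw [setLIntegral_congr_fun meas_Pos key, lintegral_const_mul _ hm']
  rfl

theorem II2_two (G K : S n → ℝ≥0∞) (hG : Measurable G) (hK : Measurable K) :
    II2 G K = nu G * Lam' K := by
  have hw : Measurable fun z : P n × S n => G z.2 * K (A2 z.1 z.2) * dn z.2 :=
    ((hG.comp measurable_snd).mul (hK.comp meas_A2)).mul (meas_dn.comp measurable_snd)
  have h0 : II2 G K = ∫⁻ g : P n, (∫⁻ x in Pos n, G x * K (A2 g x) * dn x) * kap g := by
    unfold II2
    refine lintegral_congr fun g => ?_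
    by_cases hg : (mt g).det = 0
    · rw [kap_zero hg, mul_zero, mul_zero]
    · congr 1
      have := nu_A2 hg (fun x => G (A1 g x) * K x) ((hG.comp (meas_A1' g)).mul hK)
      rw [← this]
      refine lintegral_congr fun x => ?_
      rw [A1_A2 hg]
  rw [h0, swap_aux (fun g x => G x * K (A2 g x) * dn x) hw]
  have key : ∀ x ∈ Pos n, ∫⁻ g : P n, G x * K (A2 g x) * dn x * kap g =
      (G x * dn x) * Lam' K := by
    intro x hx
    obtain ⟨a, ha, rfl⟩ := Pos_q hx
    have hm : Measurable fun g : P n => K (A2 g (q a)) := hK.comp (meas_A2'' (q a))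
    have h2 := haar_inv 1 (mt a) (by simp) ha (fun g => K (A2 g (q a))) hm
    have h3 : ∀ g : P n, G (q a) * K (A2 g (q a)) * dn (q a) * kap g =
        (G (q a) * dn (q a)) * (K (A2 g (q a)) * kap g) := by
      intro g; ring
    simp only [h3]
    have hm2 : Measurable fun g : P n => K (A2 g (q a)) * kap g := hm.mul meas_kap
    rw [lintegral_const_mul _ hm2, ← h2]
    simp only [A2_q ha]
    rfl
  have hm' : Measurable fun x : S n => G x * dn x := hG.mul meas_dn
  rw [setLIntegral_congr_fun meas_Pos key, lintegral_mul_const _ hm']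
  rfl

theorem uniq (G K : S n → ℝ≥0∞) (hG : Measurable G) (hK : Measurable K) :
    Lam G * nu K = nu G * Lam' K := by
  rw [← II2_one G K hG hK, II2_two G K hG hK]

end Pool.Agent.Run7.h884.SS
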