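import Pool.Agent.Run7.h884.SS.Wish

/-! The Wishart formula up to a constant. -/

set_option autoImplicit false

namespace Pool.Agent.Run7.h884.SS

open MeasureTheory Set Matrix
open scoped ENNReal
open Pool.Agent.H888R2.KC

variable {n : ℕ}

/-- a reference set -/
def U0 (n : ℕ) : Set (S n) :=
  {x | 1 / 2 < (Ph n x).det ∧ (Ph n x).trace < n + 1 ∧ ‖x‖ < ‖ps (Ph n) 1‖ + 1}

theorem U0_open : IsOpen (U0 n) := by
  refine (isOpen_lt continuous_const cont_Ph.matrix_det).inter
    ((isOpen_lt cont_Ph.matrix_trace continuous_const).inter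
      (isOpen_lt continuous_norm continuous_const))

theorem one_sym : (1 : Matrix (Fin n) (Fin n) ℝ)ᴴ = 1 := Matrix.conjTranspose_one

theorem ps_one_mem : ps (Ph n) 1 ∈ U0 n := by
  refine ⟨?_, ?_, by linarith⟩
  · rw [Phi_ps (frm n) _ one_sym, Matrix.det_one]; norm_num
  · rw [Phi_ps (frm n) _ one_sym, Matrix.trace_one, Fintype.card_fin]; linarith

theorem quad_le (y : S n) (v : Fin n → ℝ) : |v ⬝ᵥ (Ph n y *ᵥ v)| ≤ ‖y‖ * ∑ i, v i ^ 2 := by
  have h1 : v ⬝ᵥ (Ph n y *ᵥ v) = ∑ p : Fin n × Fin n, Ph n y p.1 p.2 * (v p.1 * v p.2) := by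
    rw [Fintype.sum_prod_type]
    simp only [dotProduct, Matrix.mulVec, Finset.mul_sum]
    refine Finset.sum_congr rfl fun i _ => Finset.sum_congr rfl fun j _ => ?_
    ring
  have h2 : ∑ p : Fin n × Fin n, (Ph n y p.1 p.2) ^ 2 = ‖y‖ ^ 2 := by
    rw [← (frm n).iso y, Fintype.sum_prod_type]
    simp
  have h3 : ∑ p : Fin n × Fin n, (v p.1 * v p.2) ^ 2 = (∑ i, v i ^ 2) ^ 2 := by
    rw [Fintype.sum_prod_type, sq (∑ i, v i ^ 2), Finset.sum_mul_sum]
    refine Finset.sum_congr rfl fun i _ => Finset.sum_congr rfl fun j _ => ?_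
    ring
  have h4 := Finset.sum_mul_sq_le_sq_mul_sq Finset.univ (fun p : Fin n × Fin n => Ph n y p.1 p.2)
    (fun p => v p.1 * v p.2)
  rw [← h1, h2, h3, ← mul_pow] at h4
  exact abs_le_of_sq_le_sq h4 (mul_nonneg (norm_nonneg _)
    (Finset.sum_nonneg fun i _ => sq_nonneg _))

theorem ball_pos {x : S n} (hx : ‖x - ps (Ph n) 1‖ < 1) (v : Fin n → ℝ) :
    0 ≤ v ⬝ᵥ (Ph n x *ᵥ v) := by
  have h1 : Ph n x = 1 + Ph n (x - ps (Ph n) 1) := by
    rw [map_sub, Phi_ps (frm n) _ one_sym]; abel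
  have h2 := quad_le (x - ps (Ph n) 1) v
  have h3 : v ⬝ᵥ v = ∑ i, v i ^ 2 := by simp only [dotProduct, sq]
  have h4 : 0 ≤ ∑ i, v i ^ 2 := Finset.sum_nonneg fun i _ => sq_nonneg _
  rw [h1, Matrix.add_mulVec, Matrix.one_mulVec, dotProduct_add, h3]
  have h5 := (abs_le.1 h2).1
  nlinarith

/-- the indicator of the reference set -/
noncomputable def G00 (n : ℕ) : S n → ℝ≥0∞ := (U0 n).indicator fun _ => 1

theorem meas_G00 : Measurable (G00 n) := measurable_const.indicator U0_open.measurableSet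

theorem nu_G00_ne : nu (G00 n) ≠ 0 := by
  intro h0
  have hm : Measurable fun x : S n => G00 n x * dn x := meas_G00.mul meas_dn
  unfold nu at h0
  rw [lintegral_eq_zero_iff hm] at h0
  have h1 : volume ((Pos n) ∩ {x : S n | G00 n x * dn x ≠ 0}) = 0 := by
    have := (ae_restrict_iff' meas_Pos).1 h0
    rw [ae_iff] at this
    refine measure_mono_null ?_ this
    rintro x ⟨hx1, hx2⟩ h
    exact hx2 (h hx1)
  have h2 : IsOpen (U0 n ∩ {x : S n | ‖x - ps (Ph n) 1‖ < 1}) :=
    U0_open.inter (isOpen_lt (by fun_prop) continuous_const)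
  have h3 : (U0 n ∩ {x : S n | ‖x - ps (Ph n) 1‖ < 1}).Nonempty :=
    ⟨ps (Ph n) 1, ps_one_mem, by simp⟩
  refine (h2.measure_pos volume h3).ne' (measure_mono_null ?_ h1)
  rintro x ⟨hx1, hx2⟩
  have hd : 1 / 2 < (Ph n x).det := hx1.1
  have hd0 : 0 < (Ph n x).det := by linarith
  refine ⟨⟨fun v => ball_pos hx2 v, hd0.ne'⟩, ?_⟩
  show G00 n x * dn x ≠ 0
  rw [G00, Set.indicator_of_mem hx1, one_mul]
  unfold dn
  rw [ne_eq, ENNReal.ofReal_eq_zero, not_le]
  have := Real.sqrt_pos.2 hd0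
  positivity

theorem nu_G00_top : nu (G00 n) ≠ ⊤ := by
  have hb : ∀ x : S n, G00 n x * dn x ≤ (Metric.closedBall (0 : S n)
      (‖ps (Ph n) 1‖ + 1)).indicator
        (fun _ => ENNReal.ofReal ((Real.sqrt (1 / 2) ^ (n + 1))⁻¹)) x := by
    intro x
    by_cases hx : x ∈ U0 n
    · have hx2 : x ∈ Metric.closedBall (0 : S n) (‖ps (Ph n) 1‖ + 1) := by
        rw [mem_closedBall_zero_iff]; exact hx.2.2.le
      rw [G00, Set.indicator_of_mem hx, Set.indicator_of_mem hx2, one_mul]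
      apply ENNReal.ofReal_le_ofReal
      have h1 : Real.sqrt (1 / 2) ≤ Real.sqrt (Ph n x).det := Real.sqrt_le_sqrt hx.1.le
      have h2 : 0 < Real.sqrt (1 / 2) := Real.sqrt_pos.2 (by norm_num)
      gcongr
    · rw [G00, Set.indicator_of_notMem hx, zero_mul]
      exact zero_le
  refine ne_top_of_le_ne_top ?_ ((setLIntegral_le_lintegral _ _).trans (lintegral_mono hb))
  rw [lintegral_indicator Metric.isClosed_closedBall.measurableSet, setLIntegral_const]
  exact ENNReal.mul_ne_top ENNReal.ofReal_ne_top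
    (isCompact_closedBall (0 : S n) _).measure_lt_top.ne

theorem Lam_G00_ne : Lam (G00 n) ≠ 0 := by
  intro h0
  have hm : Measurable fun g : P n => G00 n (q g) * kap g :=
    (meas_G00.comp cont_q.measurable).mul meas_kap
  unfold Lam at h0
  rw [lintegral_eq_zero_iff hm] at h0
  have h1 : volume {g : P n | G00 n (q g) * kap g ≠ 0} = 0 := h0
  have h2 : IsOpen ((q : P n → S n) ⁻¹' U0 n) := U0_open.preimage cont_q
  have h3 : ((q : P n → S n) ⁻¹' U0 n).Nonempty := by
    refine ⟨un 1, ?_⟩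
    show ps (Ph n) ((mt (un 1))ᵀ * mt (un 1)) ∈ U0 n
    rw [mt_un, Matrix.transpose_one, Matrix.one_mul]
    exact ps_one_mem
  refine (h2.measure_pos volume h3).ne' (measure_mono_null ?_ h1)
  intro g hg
  have hd : 1 / 2 < (Ph n (q g)).det := hg.1
  rw [Ph_q, Matrix.det_mul, Matrix.det_transpose] at hd
  have hd0 : (mt g).det ≠ 0 := by
    intro h; rw [h] at hd; norm_num at hd
  have hg' : q g ∈ U0 n := hg
  show G00 n (q g) * kap g ≠ 0
  rw [G00, Set.indicator_of_mem hg', one_mul]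
  unfold kap
  rw [ne_eq, ENNReal.ofReal_eq_zero, not_le]
  have := abs_pos.2 hd0
  positivity

theorem Lam_G00_top : Lam (G00 n) ≠ ⊤ := by
  have hb : ∀ g : P n, G00 n (q g) * kap g ≤ (Metric.closedBall (0 : P n)
      (Real.sqrt (n + 1))).indicator
        (fun _ => ENNReal.ofReal ((Real.sqrt (1 / 2) ^ n)⁻¹)) g := by
    intro g
    by_cases hx : q g ∈ U0 n
    · have htr : nsq g < n + 1 := by
        have := hx.2.1
        rwa [Ph_q, ← nsq_tr] at this
      have hx2 : g ∈ Metric.closedBall (0 : P n) (Real.sqrt (n + 1)) := by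
        rw [mem_closedBall_zero_iff, pi_norm_le_iff_of_nonneg (Real.sqrt_nonneg _)]
        intro p
        rw [Real.norm_eq_abs]
        apply Real.abs_le_sqrt
        have : g p ^ 2 ≤ nsq g := Finset.single_le_sum (f := fun p => g p ^ 2)
          (fun i _ => sq_nonneg _) (Finset.mem_univ p)
        linarith
      rw [G00, Set.indicator_of_mem hx, Set.indicator_of_mem hx2, one_mul]
      apply ENNReal.ofReal_le_ofReal
      have hd : 1 / 2 < (Ph n (q g)).det := hx.1
      rw [Ph_q, Matrix.det_mul, Matrix.det_transpose] at hd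
      have h1 : Real.sqrt (1 / 2) ≤ |(mt g).det| := by
        rw [← Real.sqrt_sq_eq_abs]
        apply Real.sqrt_le_sqrt
        rw [sq]; exact hd.le
      have h2 : 0 < Real.sqrt (1 / 2) := Real.sqrt_pos.2 (by norm_num)
      gcongr
    · rw [G00, Set.indicator_of_notMem hx, zero_mul]
      exact zero_le
  refine ne_top_of_le_ne_top ?_ (lintegral_mono hb)
  rw [lintegral_indicator Metric.isClosed_closedBall.measurableSet, setLIntegral_const]
  exact ENNReal.mul_ne_top ENNReal.ofReal_ne_top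
    (isCompact_closedBall (0 : P n) _).measure_lt_top.ne

theorem Lam_eq : ∃ c : ℝ≥0∞, c ≠ 0 ∧ c ≠ ⊤ ∧ ∀ G : S n → ℝ≥0∞, Measurable G →
    Lam G = c * nu G := by
  have h1 := uniq (G00 n) (G00 n) meas_G00 meas_G00
  rw [mul_comm] at h1
  have h2 : Lam (G00 n) = Lam' (G00 n) :=
    (ENNReal.mul_right_inj nu_G00_ne nu_G00_top).1 h1
  refine ⟨Lam (G00 n) / nu (G00 n), ?_, ?_, fun G hG => ?_⟩
  · exact (ENNReal.div_pos Lam_G00_ne nu_G00_top).ne'
  · exact ENNReal.div_ne_top Lam_G00_top nu_G00_ne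
  · have h3 := uniq G (G00 n) hG meas_G00
    rw [← h2] at h3
    have h4 : Lam G = nu G * Lam (G00 n) / nu (G00 n) := by
      rw [← h3, ENNReal.mul_div_cancel_right nu_G00_ne nu_G00_top]
    rw [h4, div_eq_mul_inv, div_eq_mul_inv]
    ring

theorem det_null : ∀ᵐ g : P n, (mt g).det ≠ 0 := by
  have h1 := Pool.Agent.H992R2.volume_det_null (n := n) 0 (σ := 1) one_pos
  have h2 := (PiLp.volume_preserving_toLp (Fin n × Fin n)).measure_preimage
    (s := {X : Pool.Agent.H992R2.W n n |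
      ((0 : Matrix (Fin n) (Fin n) ℝ) + (1 : ℝ) • Pool.Agent.H992R2.toM X).det = 0}) ?_
  · rw [h1] at h2
    rw [ae_iff]
    refine measure_mono_null ?_ h2
    intro g hg
    simp only [not_not, mem_ofPred_eq] at hg
    show ((0 : Matrix (Fin n) (Fin n) ℝ) + (1 : ℝ) • Pool.Agent.H992R2.toM (WithLp.toLp 2 g)).det = 0
    rw [zero_add, one_smul]
    exact hg
  · refine MeasurableSet.nullMeasurableSet ?_
    refine (isClosed_eq ?_ continuous_const).measurableSet
    refine Continuous.matrix_det ?_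
    refine continuous_matrix fun i j => ?_
    simp only [Matrix.add_apply, Matrix.smul_apply, Pool.Agent.H992R2.toM, Matrix.of_apply]
    fun_prop

theorem wish : ∃ c : ℝ≥0∞, c ≠ 0 ∧ c ≠ ⊤ ∧ ∀ G : S n → ℝ≥0∞, Measurable G →
    ∫⁻ g : P n, G (q g) =
      c * ∫⁻ x in Pos n, G x * ENNReal.ofReal ((Real.sqrt (Ph n x).det)⁻¹) := by
  obtain ⟨c, hc0, hct, hc⟩ := Lam_eq (n := n)
  refine ⟨c, hc0, hct, fun G hG => ?_⟩
  have hs : Measurable fun x : S n => ENNReal.ofReal (Real.sqrt (Ph n x).det ^ n) :=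
    ENNReal.measurable_ofReal.comp
      ((Real.continuous_sqrt.comp cont_Ph.matrix_det).measurable.pow_const n)
  have h1 := hc (fun x => G x * ENNReal.ofReal (Real.sqrt (Ph n x).det ^ n)) (hG.mul hs)
  have h2 : Lam (fun x => G x * ENNReal.ofReal (Real.sqrt (Ph n x).det ^ n)) =
      ∫⁻ g : P n, G (q g) := by
    unfold Lam
    refine lintegral_congr_ae ?_
    filter_upwards [det_null (n := n)] with g hg
    rw [mul_assoc]
    have : ENNReal.ofReal (Real.sqrt (Ph n (q g)).det ^ n) * kap g = 1 := by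
      unfold kap
      rw [← ENNReal.ofReal_mul (by positivity), Ph_q, Matrix.det_mul, Matrix.det_transpose,
        Real.sqrt_mul_self_eq_abs, mul_inv_cancel₀ (pow_ne_zero _ (abs_pos.2 hg).ne'),
        ENNReal.ofReal_one]
    rw [this, mul_one]
  have h3 : nu (fun x => G x * ENNReal.ofReal (Real.sqrt (Ph n x).det ^ n)) =
      ∫⁻ x in Pos n, G x * ENNReal.ofReal ((Real.sqrt (Ph n x).det)⁻¹) := by
    unfold nu
    refine setLIntegral_congr_fun meas_Pos fun x hx => ?_
    show G x * ENNReal.ofReal (Real.sqrt (Ph n x).det ^ n) * dn x = _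
    rw [mul_assoc]
    congr 1
    have hd : 0 < (Ph n x).det := by
      obtain ⟨g, hg, rfl⟩ := Pos_q hx
      rw [Ph_q, Matrix.det_mul, Matrix.det_transpose]
      exact mul_self_pos.2 hg
    have := Real.sqrt_pos.2 hd
    unfold dn
    rw [← ENNReal.ofReal_mul (by positivity)]
    congr 1
    rw [pow_succ]
    field_simp
  rw [← h2, h1, h3]

end Pool.Agent.Run7.h884.SS
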